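import Mathlib

/-!
# AU: uniformly definable properties of structures with a tuple of points
-/

set_option autoImplicit false

namespace Pool.Agent.Helper87.AU

open FirstOrder FirstOrder.Language

/-- `P` is a uniformly definable property of a structure with points indexed by `α`. -/
def UDef (L : FirstOrder.Language.{0, 0}) (α : Type)
    (P : ∀ (M : Type) [L.Structure M], (α → M) → Prop) : Prop :=
  ∃ θ : L.Formula α, ∀ (M : Type) [L.Structure M] (v : α → M), θ.Realize v ↔ P M v

variable {L : FirstOrder.Language.{0, 0}} {α β : Type}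

theorem UDef.of_formula (θ : L.Formula α) : UDef L α (fun _ _ v => θ.Realize v) :=
  ⟨θ, fun _ _ _ => Iff.rfl⟩

theorem UDef.congr {P Q : ∀ (M : Type) [L.Structure M], (α → M) → Prop} (h : UDef L α P)
    (hPQ : ∀ (M : Type) [L.Structure M] (v : α → M), P M v ↔ Q M v) : UDef L α Q := by
  obtain ⟨θ, hθ⟩ := h
  exact ⟨θ, fun M _ v => (hθ M v).trans (hPQ M v)⟩

theorem UDef.const (p : Prop) : UDef L α (fun _ _ _ => p) := by
  by_cases hp : p
  · exact ⟨⊤, fun M _ v => by simp [Formula.Realize, hp]⟩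
  · exact ⟨⊥, fun M _ v => by simp [Formula.Realize, hp]⟩

theorem UDef.not {P : ∀ (M : Type) [L.Structure M], (α → M) → Prop} (h : UDef L α P) :
    UDef L α (fun M _ v => ¬ P M v) := by
  obtain ⟨θ, hθ⟩ := h
  exact ⟨θ.not, fun M _ v => by rw [Formula.realize_not, hθ]⟩

theorem UDef.and {P Q : ∀ (M : Type) [L.Structure M], (α → M) → Prop} (h : UDef L α P)
    (h' : UDef L α Q) : UDef L α (fun M _ v => P M v ∧ Q M v) := by
  obtain ⟨θ, hθ⟩ := h
  obtain ⟨θ', hθ'⟩ := h'
  exact ⟨θ ⊓ θ', fun M _ v => by rw [Formula.realize_inf, hθ, hθ']⟩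

theorem UDef.or {P Q : ∀ (M : Type) [L.Structure M], (α → M) → Prop} (h : UDef L α P)
    (h' : UDef L α Q) : UDef L α (fun M _ v => P M v ∨ Q M v) :=
  (h.not.and h'.not).not.congr fun _ _ _ => by tauto

theorem UDef.imp {P Q : ∀ (M : Type) [L.Structure M], (α → M) → Prop} (h : UDef L α P)
    (h' : UDef L α Q) : UDef L α (fun M _ v => P M v → Q M v) :=
  (h.not.or h').congr fun _ _ _ => by tauto

theorem UDef.iff {P Q : ∀ (M : Type) [L.Structure M], (α → M) → Prop} (h : UDef L α P)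
    (h' : UDef L α Q) : UDef L α (fun M _ v => (P M v ↔ Q M v)) :=
  ((h.imp h').and (h'.imp h)).congr fun _ _ _ => by tauto

theorem UDef.allFin {ι : Type} [Finite ι]
    {P : ι → ∀ (M : Type) [L.Structure M], (α → M) → Prop} (h : ∀ i, UDef L α (P i)) :
    UDef L α (fun M _ v => ∀ i, P i M v) := by
  choose θ hθ using h
  refine ⟨BoundedFormula.iInf θ, fun M _ v => ?_⟩
  rw [Formula.Realize, BoundedFormula.realize_iInf]
  exact forall_congr' fun i => hθ i M v

theorem UDef.exFin {ι : Type} [Finite ι]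
    {P : ι → ∀ (M : Type) [L.Structure M], (α → M) → Prop} (h : ∀ i, UDef L α (P i)) :
    UDef L α (fun M _ v => ∃ i, P i M v) :=
  (UDef.allFin fun i => (h i).not).not.congr fun _ _ _ => by push Not; rfl

theorem UDef.relabel {P : ∀ (M : Type) [L.Structure M], (α → M) → Prop} (h : UDef L α P)
    (g : α → β) : UDef L β (fun M _ v => P M (v ∘ g)) := by
  obtain ⟨θ, hθ⟩ := h
  exact ⟨θ.relabel g, fun M _ v => by rw [Formula.realize_relabel, hθ]⟩

/-- Quantification over tuples; `P` is a property of the two tuples. -/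
theorem UDef.ex [Finite β] {P : ∀ (M : Type) [L.Structure M], (α → M) → (β → M) → Prop}
    (h : UDef L (α ⊕ β) (fun M _ v => P M (v ∘ Sum.inl) (v ∘ Sum.inr))) :
    UDef L α (fun M _ v => ∃ w : β → M, P M v w) := by
  obtain ⟨θ, hθ⟩ := h
  refine ⟨θ.iExs β, fun M _ v => ?_⟩
  rw [Formula.realize_iExs]
  refine exists_congr fun w => ?_
  rw [hθ]
  simp only [Sum.elim_comp_inl, Sum.elim_comp_inr]

theorem UDef.all [Finite β] {P : ∀ (M : Type) [L.Structure M], (α → M) → (β → M) → Prop}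
    (h : UDef L (α ⊕ β) (fun M _ v => P M (v ∘ Sum.inl) (v ∘ Sum.inr))) :
    UDef L α (fun M _ v => ∀ w : β → M, P M v w) :=
  (UDef.ex (P := fun M _ v w => ¬ P M v w) h.not).not.congr fun _ _ _ => by push Not; rfl

/-- Quantification over points. -/
theorem UDef.exu {P : ∀ (M : Type) [L.Structure M], (α → M) → M → Prop}
    (h : UDef L (α ⊕ Unit) (fun M _ v => P M (v ∘ Sum.inl) (v (Sum.inr ())))) :
    UDef L α (fun M _ v => ∃ x : M, P M v x) :=
  (UDef.ex (β := Unit) (P := fun M _ v w => P M v (w ())) h).congr fun M _ v =>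
    ⟨fun ⟨w, hw⟩ => ⟨w (), hw⟩, fun ⟨x, hx⟩ => ⟨fun _ => x, hx⟩⟩

theorem UDef.allu {P : ∀ (M : Type) [L.Structure M], (α → M) → M → Prop}
    (h : UDef L (α ⊕ Unit) (fun M _ v => P M (v ∘ Sum.inl) (v (Sum.inr ())))) :
    UDef L α (fun M _ v => ∀ x : M, P M v x) :=
  (UDef.all (β := Unit) (P := fun M _ v w => P M v (w ())) h).congr fun M _ v =>
    ⟨fun hw x => hw (fun _ => x), fun hx w => hx (w ())⟩

theorem UDef.termEq (t₁ t₂ : L.Term α) :
    UDef L α (fun _ _ v => t₁.realize v = t₂.realize v) :=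
  ⟨t₁.equal t₂, fun M _ v => Formula.realize_equal⟩

theorem UDef.rel {n : ℕ} (r : L.Relations n) (ts : Fin n → L.Term α) :
    UDef L α (fun _ _ v => Structure.RelMap r (fun i => (ts i).realize v)) :=
  ⟨r.formula ts, fun M _ v => Formula.realize_rel⟩

/-- Equality of two of the points. -/
theorem UDef.varEq (a b : α) : UDef L α (fun _ _ v => v a = v b) :=
  (UDef.termEq (Term.var a) (Term.var b)).congr fun _ _ _ => Iff.rfl

theorem UDef.exists_sentence {P : ∀ (M : Type) [L.Structure M], (Empty → M) → Prop}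
    (h : UDef L Empty P) :
    ∃ φ : L.Sentence, ∀ (M : Type) [L.Structure M], φ.Realize M ↔ P M default := by
  obtain ⟨θ, hθ⟩ := h
  exact ⟨θ, fun M _ => hθ M default⟩

end Pool.Agent.Helper87.AU
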