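import Pool.Agent.Helper87.AU.DecTr

/-!
# AU-8: decoding spectra

* `ustr_surj`: given an `L`-structure `S` on `(Fin (r + 1) → M) × Fin D` define an `LD L r D`-structure on `M`:
  `DFun.mk f κ i` at `a` is the `i`-th coordinate of `S.funMap f (fun s => (x s, κ s))` where
  `x s j = a (finProdFinEquiv (s, j))` (so `flat x = a`), `DRel.col f κ d` at `a` says that the colour of
  the same value is `d`, `DRel.rel R κ` at `a` is `S.RelMap R (fun s => (x s, κ s))`. Then `ustr` of it is `S`
  (`pick d₀ (fun d => c = d) = c`).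
* `decode`: `d₀ = ⟨0, _⟩`, `χ'` from `dec_tr`. `LD L r D` is finite (surjection from a finite type, as in
  `isSpectrum_AP`). If `M` is a model of `χ'` with `m > 0` elements then `U = (Fin (r + 1) → M) × Fin D` with
  `ustr` is a model of `χ` with `D * m ^ (r + 1)` elements. Conversely a model of `χ` with `D * m ^ (r + 1)` elements
  can be transported to `(Fin (r + 1) → Fin m) × Fin D` (`Equiv.inducedStructure`), and `ustr_surj`.
-/

set_option autoImplicit false

namespace Pool.Agent.Helper87.AU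

open FirstOrder FirstOrder.Language Pool.Agent.Helper31.Spectra

/-- A tuple of length `t * (r + 1)` as a tuple of tuples. -/
private def unflat {M : Type} {r t : ℕ} (a : Fin (t * (r + 1)) → M) : Fin t → Fin (r + 1) → M :=
  fun s j => a (finProdFinEquiv (s, j))

private theorem unflat_flat {M : Type} {r t : ℕ} (x : Fin t → Fin (r + 1) → M) :
    unflat (flat x) = x := by
  funext s j
  unfold unflat flat
  rw [Equiv.symm_apply_apply]

private theorem pick_eq {D : ℕ} (d₀ c : Fin D) : pick d₀ (fun d => c = d) = c := by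
  unfold pick
  have h : ∃ d, c = d := ⟨c, rfl⟩
  rw [dif_pos h]
  exact h.choose_spec.symm

private def dfunMap {L : FirstOrder.Language.{0, 0}} {r D : ℕ} {M : Type}
    (S : L.Structure ((Fin (r + 1) → M) × Fin D)) :
    ∀ {n : ℕ}, DFun L r D n → (Fin n → M) → M
  | _, DFun.mk f κ i, a => (S.funMap f (fun s => (unflat a s, κ s))).1 i

private def drelMap {L : FirstOrder.Language.{0, 0}} {r D : ℕ} {M : Type}
    (S : L.Structure ((Fin (r + 1) → M) × Fin D)) :
    ∀ {n : ℕ}, DRel L r D n → (Fin n → M) → Prop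
  | _, DRel.rel R κ, a => S.RelMap R (fun s => (unflat a s, κ s))
  | _, DRel.col f κ d, a => (S.funMap f (fun s => (unflat a s, κ s))).2 = d

theorem ustr_surj {L : FirstOrder.Language.{0, 0}} (r : ℕ) {D : ℕ} (d₀ : Fin D) (M : Type)
    (S : L.Structure ((Fin (r + 1) → M) × Fin D)) :
    ∃ S' : (LD L r D).Structure M, @ustr L r D d₀ M S' = S := by
  refine ⟨⟨fun {_} f a => dfunMap S f a, fun {_} R a => drelMap S R a⟩, ?_⟩
  apply FirstOrder.Language.Structure.ext
  · funext n f v
    show ((fun i => (S.funMap f (fun s => (unflat (flat fun s => (v s).1) s, (v s).2))).1 i),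
      pick d₀ (fun d => (S.funMap f (fun s => (unflat (flat fun s => (v s).1) s, (v s).2))).2 = d)) =
        S.funMap f v
    rw [unflat_flat, pick_eq]
  · funext n R v
    show S.RelMap R (fun s => (unflat (flat fun s => (v s).1) s, (v s).2)) = S.RelMap R v
    rw [unflat_flat]

private theorem finVoc_LD {L : FirstOrder.Language.{0, 0}} (hL : FinVoc L) (r D : ℕ) :
    FinVoc (LD L r D) := by
  obtain ⟨h1, h2⟩ := hL
  constructor
  · have : Function.Surjective
        (fun z : (Σ f : (Σ n, L.Functions n), (Fin f.1 → Fin D) × Fin (r + 1)) =>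
          (⟨z.1.1 * (r + 1), DFun.mk z.1.2 z.2.1 z.2.2⟩ : Σ n, (LD L r D).Functions n)) := by
      rintro ⟨n, f⟩
      cases f with
      | mk f κ i => exact ⟨⟨⟨_, f⟩, κ, i⟩, rfl⟩
    exact Finite.of_surjective _ this
  · have : Function.Surjective
        (fun z : (Σ R : (Σ n, L.Relations n), (Fin R.1 → Fin D)) ⊕
            (Σ f : (Σ n, L.Functions n), (Fin f.1 → Fin D) × Fin D) =>
          (match z with
          | Sum.inl z => ⟨z.1.1 * (r + 1), DRel.rel z.1.2 z.2⟩
          | Sum.inr z => ⟨z.1.1 * (r + 1), DRel.col z.1.2 z.2.1 z.2.2⟩ :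
            Σ n, (LD L r D).Relations n)) := by
      rintro ⟨n, R⟩
      cases R with
      | rel R κ => exact ⟨Sum.inl ⟨⟨_, R⟩, κ⟩, rfl⟩
      | col f κ d => exact ⟨Sum.inr ⟨⟨_, f⟩, κ, d⟩, rfl⟩
    exact Finite.of_surjective _ this

theorem decode {L : FirstOrder.Language.{0, 0}} (hL : FinVoc L) (χ : L.Sentence) (r D : ℕ)
    (hD : 1 ≤ D) : IsSpectrum {m | 0 < m ∧ D * m ^ (r + 1) ∈ Spec L χ} := by
  obtain ⟨χ', hχ'⟩ := dec_tr r (⟨0, hD⟩ : Fin D) χ
  refine ⟨LD L r D, χ', finVoc_LD hL r D, ?_⟩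
  ext m
  have hcard : ∀ M : Type, Nat.card ((Fin (r + 1) → M) × Fin D) = D * Nat.card M ^ (r + 1) := by
    intro M
    rw [Nat.card_prod, Nat.card_fun, Nat.card_eq_fintype_card (α := Fin (r + 1)),
      Nat.card_eq_fintype_card (α := Fin D), Fintype.card_fin, Fintype.card_fin, mul_comm]
  constructor
  · rintro ⟨hm, M, sM, hM, hr⟩
    refine ⟨hm, Nat.mul_pos hD (Nat.pow_pos hm), (Fin (r + 1) → M) × Fin D,
      ustr L r ⟨0, hD⟩ M, ?_, (hχ' M).1 hr⟩
    rw [hcard, hM]
  · rintro ⟨hm, hpos, N, sN, hN, hr⟩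
    refine ⟨hm, Fin m, ?_⟩
    have hU : Nat.card ((Fin (r + 1) → Fin m) × Fin D) = D * m ^ (r + 1) := by
      rw [hcard, Nat.card_eq_fintype_card, Fintype.card_fin]
    have hfN : Finite N := Nat.finite_of_card_ne_zero (by omega)
    obtain ⟨e⟩ : Nonempty (N ≃ (Fin (r + 1) → Fin m) × Fin D) :=
      Finite.card_eq.1 (hN.trans hU.symm)
    let S : L.Structure ((Fin (r + 1) → Fin m) × Fin D) := e.inducedStructure
    have hS : @Sentence.Realize L ((Fin (r + 1) → Fin m) × Fin D) S χ :=
      (StrongHomClass.realize_sentence e.inducedStructureEquiv χ).1 hr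
    obtain ⟨S', hS'⟩ := ustr_surj r (⟨0, hD⟩ : Fin D) (Fin m) S
    refine ⟨S', ?_, (hχ' (Fin m)).2 ?_⟩
    · rw [Nat.card_eq_fintype_card, Fintype.card_fin]
    · rw [hS']
      exact hS

end Pool.Agent.Helper87.AU
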