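import Pool.Agent.Helper87.AU.Encode
import Pool.Agent.Helper87.AU.Decode

/-!
# AU-9: for every fixed base the sentences with few labelled models represent the full problem
-/

set_option autoImplicit false

namespace Pool.Agent.Helper87.AU

open FirstOrder FirstOrder.Language Pool.Agent.Helper31.Spectra

theorem barrier (C : ℕ)
    (h : ∀ (L : FirstOrder.Language.{0, 0}) (φ : L.Sentence), FinVoc L →
      (∃ n₀ : ℕ, ∀ n, n₀ ≤ n →
        Nat.card {S : L.Structure (Fin n) // @Sentence.Realize L (Fin n) S φ} * C ^ n ≤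
          n.factorial) → IsSpectrum {n | 0 < n ∧ n ∉ Spec L φ})
    (L : FirstOrder.Language.{0, 0}) (φ : L.Sentence) (hL : FinVoc L) :
    IsSpectrum {n | 0 < n ∧ n ∉ Spec L φ} := by
  obtain ⟨r, D, L', φ', hD, hL', hspec, hfew⟩ := encode hL φ C
  obtain ⟨L'', χ, hL'', hχ⟩ := h L' φ' hL' hfew
  have h1 := decode hL'' χ r D hD
  have h2 : {m | 0 < m ∧ D * m ^ (r + 1) ∈ Spec L'' χ} = {n | 0 < n ∧ n ∉ Spec L φ} := by
    ext m
    rw [hχ, hspec]
    simp only [Set.mem_setOf_eq]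
    constructor
    · rintro ⟨hm, -, h3⟩
      exact ⟨hm, fun h4 => h3 ⟨m, h4, rfl⟩⟩
    · rintro ⟨hm, h3⟩
      refine ⟨hm, by positivity, ?_⟩
      rintro ⟨m', hm', h4⟩
      have h5 : m ^ (r + 1) = m' ^ (r + 1) := Nat.eq_of_mul_eq_mul_left hD h4
      have h6 : m = m' := Nat.pow_left_injective (Nat.succ_ne_zero r) h5
      rw [h6] at h3
      exact h3 hm'
  rw [← h2]
  exact h1

end Pool.Agent.Helper87.AU
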