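import Pool.Agent.Helper31.Spectra

/-!
# AU: structures on `M ^ (r + 1) × D` coded by structures on `M`, definitions

For an `LD L r D`-structure `M` let `ustr` be the `L`-structure on `(Fin (r + 1) → M) × Fin D` with: the
coordinates of `f (x₁, κ₁) … (x_t, κ_t)` are given by the function symbols `DFun.mk f κ i`, the
colour (element of `Fin D`) by the relation symbols `DRel.col f κ d` (`pick` of the set of the `d` with
`DRel.col f κ d`), the relations by `DRel.rel R κ`.
-/

set_option autoImplicit false

namespace Pool.Agent.Helper87.AU

open FirstOrder FirstOrder.Language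

/-- Function symbols for the coordinates. -/
inductive DFun (L : FirstOrder.Language.{0, 0}) (r D : ℕ) : ℕ → Type
  | mk {t : ℕ} (f : L.Functions t) (κ : Fin t → Fin D) (i : Fin (r + 1)) :
      DFun L r D (t * (r + 1))

/-- Relation symbols. -/
inductive DRel (L : FirstOrder.Language.{0, 0}) (r D : ℕ) : ℕ → Type
  | rel {t : ℕ} (R : L.Relations t) (κ : Fin t → Fin D) : DRel L r D (t * (r + 1))
  | col {t : ℕ} (f : L.Functions t) (κ : Fin t → Fin D) (d : Fin D) : DRel L r D (t * (r + 1))

/-- The language of the codes. -/
abbrev LD (L : FirstOrder.Language.{0, 0}) (r D : ℕ) : FirstOrder.Language.{0, 0} :=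
  ⟨DFun L r D, DRel L r D⟩

open Classical in
/-- An element of a set of colours, the given one if there is none. -/
noncomputable def pick {D : ℕ} (d₀ : Fin D) (p : Fin D → Prop) : Fin D :=
  if h : ∃ d, p d then h.choose else d₀

/-- A tuple of `t` tuples of length `r + 1` as one tuple. -/
def flat {M : Type} {r t : ℕ} (x : Fin t → Fin (r + 1) → M) : Fin (t * (r + 1)) → M :=
  fun a => x (finProdFinEquiv.symm a).1 (finProdFinEquiv.symm a).2

/-- The coded structure. -/
@[instance_reducible]
noncomputable def ustr (L : FirstOrder.Language.{0, 0}) (r : ℕ) {D : ℕ} (d₀ : Fin D) (M : Type)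
    [(LD L r D).Structure M] : L.Structure ((Fin (r + 1) → M) × Fin D) where
  funMap := fun {_} f v =>
    (fun i => Structure.funMap (L := LD L r D) (DFun.mk f (fun s => (v s).2) i)
        (flat fun s => (v s).1),
      pick d₀ fun d => Structure.RelMap (L := LD L r D) (DRel.col f (fun s => (v s).2) d)
        (flat fun s => (v s).1))
  RelMap := fun {_} R v => Structure.RelMap (L := LD L r D) (DRel.rel R (fun s => (v s).2))
    (flat fun s => (v s).1)

end Pool.Agent.Helper87.AU
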