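import Pool.Agent.Helper87.AU.DecDefs
import Pool.Agent.Helper87.AU.UDef

/-!
# AU-7: translation of sentences about the coded structure

Proof of `dec_tr`. Write `U = (Fin (r + 1) → M) × Fin D` with the structure `ustr L r d₀ M`. For
`w : Fin n × Fin (r + 1) → M` and `κ : Fin n → Fin D` let `pt w κ : Fin n → U`, `pt w κ i = (fun j => w (i, j), κ i)`.
1. Terms. For a term `t : L.Term (Empty ⊕ Fin n)`, `κ`, `d : Fin D`: the property of
   `(w, y) : (Fin n × Fin (r + 1)) ⊕ Fin (r + 1) → M`
   `t.realize (Sum.elim default (pt w κ)) = (y, d)` is `UDef`. Induction on `t`: variable `inr i`: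
   `(∀ j, w (i, j) = y j) ∧ κ i = d`. `f (t_1, …, t_k)`: there are `z : Fin k × Fin (r + 1) → M` (quantifier `UDef.ex`)
   and `κ' : Fin k → Fin D` (`exFin`) with `t_s.realize = (z (s, ·), κ' s)` for all `s` (induction hypothesis,
   `relabel`), and `funMap f (pt z κ') = (y, d)`, i.e. for all `i`:
   `funMap (DFun.mk f κ' i) (flat ..) = y i` (`termEq`) and `pick d₀ (fun d' => RelMap (DRel.col f κ' d') (flat ..)) = d`:
   the last one says: there is a set `p : Fin D → Prop` (finitely many) with `pick d₀ p = d` and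
   `∀ d', p d' ↔ RelMap (DRel.col f κ' d') (flat ..)` (`exFin`, `allFin`, `iff`, `const`, `rel`).
2. Formulas. For `θ : L.BoundedFormula Empty n` and `κ` the property `θ.Realize default (pt w κ)` (in `ustr`) of
   `w : Fin n × Fin (r + 1) → M` is `UDef`. `equal t₁ t₂`: there are `y`, `d` with `t₁ = (y, d)`, `t₂ = (y, d)`; `rel`: as for
   functions with `DRel.rel`; `imp`; `all`: for all `d : Fin D` (`allFin`) and `y : Fin (r + 1) → M` (`UDef.all`) the
   property for `θ` with `Fin.snoc κ d` at the extended tuple (`relabel`).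
3. Sentences: `n = 0`, `UDef.exists_sentence` (relabel `Fin 0 × _` to `Empty`).
-/

set_option autoImplicit false

namespace Pool.Agent.Helper87.AU

open FirstOrder FirstOrder.Language

/-- points of the coded structure -/
def decTr_pt {M : Type} {r D : ℕ} {α : Type} (w : α × Fin (r + 1) → M) (κ : α → Fin D) :
    α → (Fin (r + 1) → M) × Fin D := fun a => (fun j => w (a, j), κ a)

theorem decTr_pick {L' : FirstOrder.Language.{0, 0}} {α : Type} {D : ℕ} (d₀ d : Fin D)
    {Q : Fin D → ∀ (M : Type) [L'.Structure M], (α → M) → Prop} (h : ∀ d', UDef L' α (Q d')) :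
    UDef L' α (fun M _ v => pick d₀ (fun d' => Q d' M v) = d) := by
  have h1 : UDef L' α (fun M _ v => ∃ p : Fin D → Prop, pick d₀ p = d ∧ ∀ d', (p d' ↔ Q d' M v)) :=
    UDef.exFin fun p => (UDef.const _).and (UDef.allFin fun d' => (UDef.const _).iff (h d'))
  refine h1.congr fun M _ v => ⟨?_, ?_⟩
  · rintro ⟨p, hp, hpq⟩
    have : p = fun d' => Q d' M v := funext fun d' => propext (hpq d')
    rw [← this]
    exact hp
  · intro hd
    exact ⟨_, hd, fun d' => Iff.rfl⟩

theorem decTr_term {L : FirstOrder.Language.{0, 0}} (r : ℕ) {D : ℕ} (d₀ : Fin D) {α : Type}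
    (κ : α → Fin D) (t : L.Term α) : ∀ d : Fin D,
    UDef (LD L r D) ((α × Fin (r + 1)) ⊕ Fin (r + 1)) (fun M _ v =>
      @Term.realize L ((Fin (r + 1) → M) × Fin D) (ustr L r d₀ M) α
        (decTr_pt (v ∘ Sum.inl) κ) t = (v ∘ Sum.inr, d)) := by
  induction t with
  | var a =>
    intro d
    have h1 : UDef (LD L r D) ((α × Fin (r + 1)) ⊕ Fin (r + 1)) (fun M _ v =>
        (∀ j : Fin (r + 1), v (Sum.inl (a, j)) = v (Sum.inr j)) ∧ κ a = d) :=
      (UDef.allFin fun j => UDef.varEq _ _).and (UDef.const _)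
    refine h1.congr fun M _ v => ?_
    letI : L.Structure ((Fin (r + 1) → M) × Fin D) := ustr L r d₀ M
    rw [Term.realize_var]
    unfold decTr_pt
    rw [Prod.mk.injEq, funext_iff]
    rfl
  | @func k f ts ih =>
    intro d
    have h1 : UDef (LD L r D) ((α × Fin (r + 1)) ⊕ Fin (r + 1)) (fun M _ v =>
        ∃ z : Fin k × Fin (r + 1) → M, ∃ κ' : Fin k → Fin D,
          (∀ s, @Term.realize L ((Fin (r + 1) → M) × Fin D) (ustr L r d₀ M) α
            (decTr_pt (v ∘ Sum.inl) κ) (ts s) = (fun j => z (s, j), κ' s)) ∧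
          ((∀ i : Fin (r + 1), Structure.funMap (L := LD L r D) (DFun.mk f κ' i)
              (flat fun s j => z (s, j)) = v (Sum.inr i)) ∧
            pick d₀ (fun d' => Structure.RelMap (L := LD L r D) (DRel.col f κ' d')
              (flat fun s j => z (s, j))) = d)) := by
      refine UDef.ex (P := fun M _ v z => ∃ κ' : Fin k → Fin D,
          (∀ s, @Term.realize L ((Fin (r + 1) → M) × Fin D) (ustr L r d₀ M) α
            (decTr_pt (v ∘ Sum.inl) κ) (ts s) = (fun j => z (s, j), κ' s)) ∧
          ((∀ i : Fin (r + 1), Structure.funMap (L := LD L r D) (DFun.mk f κ' i)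
              (flat fun s j => z (s, j)) = v (Sum.inr i)) ∧
            pick d₀ (fun d' => Structure.RelMap (L := LD L r D) (DRel.col f κ' d')
              (flat fun s j => z (s, j))) = d)) ?_
      refine UDef.exFin fun κ' => UDef.and (UDef.allFin fun s => ?_)
        (UDef.and (UDef.allFin fun i => ?_) (decTr_pick d₀ d fun d' => ?_))
      · exact (ih s (κ' s)).relabel (fun x => match x with
          | Sum.inl y => Sum.inl (Sum.inl y)
          | Sum.inr j => Sum.inr (s, j))
      · exact UDef.termEq (L := LD L r D)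
          (Term.func (DFun.mk f κ' i) (fun a => Term.var (Sum.inr (finProdFinEquiv.symm a))))
          (Term.var (Sum.inl (Sum.inr i)))
      · exact UDef.rel (L := LD L r D) (DRel.col f κ' d')
          (fun a => Term.var (Sum.inr (finProdFinEquiv.symm a)))
    refine h1.congr fun M _ v => ?_
    letI : L.Structure ((Fin (r + 1) → M) × Fin D) := ustr L r d₀ M
    rw [Term.realize_func]
    constructor
    · rintro ⟨z, κ', h2, h3, h4⟩
      have e : (fun i => @Term.realize L ((Fin (r + 1) → M) × Fin D) (ustr L r d₀ M) α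
          (decTr_pt (v ∘ Sum.inl) κ) (ts i)) = fun s => (fun j => z (s, j), κ' s) := funext h2
      rw [e]
      exact Prod.ext (funext h3) h4
    · intro h2
      refine ⟨fun x => (@Term.realize L ((Fin (r + 1) → M) × Fin D) (ustr L r d₀ M) α
          (decTr_pt (v ∘ Sum.inl) κ) (ts x.1)).1 x.2, fun s =>
          (@Term.realize L ((Fin (r + 1) → M) × Fin D) (ustr L r d₀ M) α
          (decTr_pt (v ∘ Sum.inl) κ) (ts s)).2, fun s => rfl, ?_, ?_⟩
      · intro i
        exact congrFun (congrArg Prod.fst h2) i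
      · exact congrArg Prod.snd h2

theorem decTr_term' {L : FirstOrder.Language.{0, 0}} (r : ℕ) {D : ℕ} (d₀ : Fin D) {n : ℕ}
    (κ : Fin n → Fin D) (t : L.Term (Empty ⊕ Fin n)) (d : Fin D) :
    UDef (LD L r D) ((Fin n × Fin (r + 1)) ⊕ Fin (r + 1)) (fun M _ v =>
      @Term.realize L ((Fin (r + 1) → M) × Fin D) (ustr L r d₀ M) (Empty ⊕ Fin n)
        (Sum.elim default (decTr_pt (v ∘ Sum.inl) κ)) t = (v ∘ Sum.inr, d)) := by
  refine (decTr_term r d₀ κ (t.relabel (Sum.elim Empty.elim id)) d).congr fun M _ v => ?_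
  letI : L.Structure ((Fin (r + 1) → M) × Fin D) := ustr L r d₀ M
  rw [Term.realize_relabel]
  have e : (decTr_pt (v ∘ Sum.inl) κ ∘ Sum.elim Empty.elim id :
      Empty ⊕ Fin n → (Fin (r + 1) → M) × Fin D) =
      Sum.elim default (decTr_pt (v ∘ Sum.inl) κ) := by
    funext x
    rcases x with x | x
    · exact x.elim
    · rfl
  rw [e]

theorem decTr_formula {L : FirstOrder.Language.{0, 0}} (r : ℕ) {D : ℕ} (d₀ : Fin D) {n : ℕ}
    (θ : L.BoundedFormula Empty n) : ∀ κ : Fin n → Fin D,
    UDef (LD L r D) (Fin n × Fin (r + 1)) (fun M _ v =>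
      @BoundedFormula.Realize L ((Fin (r + 1) → M) × Fin D) (ustr L r d₀ M) Empty n θ default
        (decTr_pt v κ)) := by
  induction θ with
  | falsum => exact fun κ => UDef.const False
  | @equal n t₁ t₂ =>
    intro κ
    have h1 : UDef (LD L r D) (Fin n × Fin (r + 1)) (fun M _ v =>
        ∃ y : Fin (r + 1) → M, ∃ d : Fin D,
          @Term.realize L ((Fin (r + 1) → M) × Fin D) (ustr L r d₀ M) (Empty ⊕ Fin n)
            (Sum.elim default (decTr_pt v κ)) t₁ = (y, d) ∧
          @Term.realize L ((Fin (r + 1) → M) × Fin D) (ustr L r d₀ M) (Empty ⊕ Fin n)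
            (Sum.elim default (decTr_pt v κ)) t₂ = (y, d)) := by
      refine UDef.ex (P := fun M _ v y => ∃ d : Fin D,
          @Term.realize L ((Fin (r + 1) → M) × Fin D) (ustr L r d₀ M) (Empty ⊕ Fin n)
            (Sum.elim default (decTr_pt v κ)) t₁ = (y, d) ∧
          @Term.realize L ((Fin (r + 1) → M) × Fin D) (ustr L r d₀ M) (Empty ⊕ Fin n)
            (Sum.elim default (decTr_pt v κ)) t₂ = (y, d)) ?_
      exact UDef.exFin fun d => (decTr_term' r d₀ κ t₁ d).and (decTr_term' r d₀ κ t₂ d)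
    refine h1.congr fun M _ v => ?_
    constructor
    · rintro ⟨y, d, h2, h3⟩
      exact h2.trans h3.symm
    · intro h2
      exact ⟨_, _, rfl, h2.symm⟩
  | @rel n k R ts =>
    intro κ
    have h1 : UDef (LD L r D) (Fin n × Fin (r + 1)) (fun M _ v =>
        ∃ z : Fin k × Fin (r + 1) → M, ∃ κ' : Fin k → Fin D,
          (∀ s, @Term.realize L ((Fin (r + 1) → M) × Fin D) (ustr L r d₀ M) (Empty ⊕ Fin n)
            (Sum.elim default (decTr_pt v κ)) (ts s) = (fun j => z (s, j), κ' s)) ∧
          Structure.RelMap (L := LD L r D) (DRel.rel R κ') (flat fun s j => z (s, j))) := by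
      refine UDef.ex (P := fun M _ v z => ∃ κ' : Fin k → Fin D,
          (∀ s, @Term.realize L ((Fin (r + 1) → M) × Fin D) (ustr L r d₀ M) (Empty ⊕ Fin n)
            (Sum.elim default (decTr_pt v κ)) (ts s) = (fun j => z (s, j), κ' s)) ∧
          Structure.RelMap (L := LD L r D) (DRel.rel R κ') (flat fun s j => z (s, j))) ?_
      refine UDef.exFin fun κ' => UDef.and (UDef.allFin fun s => ?_) ?_
      · exact (decTr_term' r d₀ κ (ts s) (κ' s)).relabel (fun x => match x with
          | Sum.inl y => Sum.inl y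
          | Sum.inr j => Sum.inr (s, j))
      · exact UDef.rel (L := LD L r D) (DRel.rel R κ')
          (fun a => Term.var (Sum.inr (finProdFinEquiv.symm a)))
    refine h1.congr fun M _ v => ?_
    constructor
    · rintro ⟨z, κ', h2, h3⟩
      have e : (fun i => @Term.realize L ((Fin (r + 1) → M) × Fin D) (ustr L r d₀ M) (Empty ⊕ Fin n)
          (Sum.elim default (decTr_pt v κ)) (ts i)) = fun s => (fun j => z (s, j), κ' s) := funext h2
      change @Structure.RelMap L _ (ustr L r d₀ M) k R (fun i => @Term.realize L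
        ((Fin (r + 1) → M) × Fin D) (ustr L r d₀ M) (Empty ⊕ Fin n)
          (Sum.elim default (decTr_pt v κ)) (ts i))
      rw [e]
      exact h3
    · intro h2
      exact ⟨fun x => (@Term.realize L ((Fin (r + 1) → M) × Fin D) (ustr L r d₀ M) (Empty ⊕ Fin n)
          (Sum.elim default (decTr_pt v κ)) (ts x.1)).1 x.2, fun s =>
          (@Term.realize L ((Fin (r + 1) → M) × Fin D) (ustr L r d₀ M) (Empty ⊕ Fin n)
          (Sum.elim default (decTr_pt v κ)) (ts s)).2, fun s => rfl, h2⟩
  | imp θ₁ θ₂ ih₁ ih₂ => exact fun κ => (ih₁ κ).imp (ih₂ κ)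
  | @all n θ ih =>
    intro κ
    have h1 : UDef (LD L r D) (Fin n × Fin (r + 1)) (fun M _ v =>
        ∀ y : Fin (r + 1) → M, ∀ d : Fin D,
          @BoundedFormula.Realize L ((Fin (r + 1) → M) × Fin D) (ustr L r d₀ M) Empty (n + 1) θ
            default (Fin.snoc (α := fun _ => (Fin (r + 1) → M) × Fin D) (decTr_pt v κ) (y, d))) := by
      refine UDef.all (P := fun M _ v y => ∀ d : Fin D,
          @BoundedFormula.Realize L ((Fin (r + 1) → M) × Fin D) (ustr L r d₀ M) Empty (n + 1) θ
            default (Fin.snoc (α := fun _ => (Fin (r + 1) → M) × Fin D) (decTr_pt v κ) (y, d))) ?_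
      refine UDef.allFin fun d => ?_
      refine ((ih (Fin.snoc (α := fun _ => Fin D) κ d)).relabel
        (fun x : Fin (n + 1) × Fin (r + 1) =>
          (Fin.lastCases (motive := fun _ => (Fin n × Fin (r + 1)) ⊕ Fin (r + 1)) (Sum.inr x.2)
            (fun i => Sum.inl (i, x.2)) x.1))).congr fun M _ v => ?_
      have e : decTr_pt (v ∘ (fun x : Fin (n + 1) × Fin (r + 1) =>
          (Fin.lastCases (motive := fun _ => (Fin n × Fin (r + 1)) ⊕ Fin (r + 1)) (Sum.inr x.2)
            (fun i => Sum.inl (i, x.2)) x.1))) (Fin.snoc (α := fun _ => Fin D) κ d) =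
          Fin.snoc (α := fun _ => (Fin (r + 1) → M) × Fin D) (decTr_pt (v ∘ Sum.inl) κ)
            (v ∘ Sum.inr, d) := by
        funext i
        refine Fin.lastCases ?_ (fun i => ?_) i
        · simp [decTr_pt]
          rfl
        · simp [decTr_pt]
      rw [e]
    refine h1.congr fun M _ v => ?_
    constructor
    · intro h2 x
      exact h2 x.1 x.2
    · intro h2 y d
      exact h2 (y, d)

theorem dec_tr {L : FirstOrder.Language.{0, 0}} (r : ℕ) {D : ℕ} (d₀ : Fin D) (χ : L.Sentence) :
    ∃ χ' : (LD L r D).Sentence, ∀ (M : Type) [(LD L r D).Structure M],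
      χ'.Realize M ↔
        @Sentence.Realize L ((Fin (r + 1) → M) × Fin D) (ustr L r d₀ M) χ := by
  have h := (decTr_formula r d₀ (n := 0) χ (fun i => i.elim0)).relabel
    (fun x : Fin 0 × Fin (r + 1) => (x.1.elim0 : Empty))
  obtain ⟨φ, hφ⟩ := UDef.exists_sentence h
  refine ⟨φ, fun M _ => (hφ M).trans ?_⟩
  have e : decTr_pt ((default : Empty → M) ∘ (fun x : Fin 0 × Fin (r + 1) => (x.1.elim0 : Empty)))
      (fun i : Fin 0 => (i.elim0 : Fin D)) =
      (default : Fin 0 → (Fin (r + 1) → M) × Fin D) := by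
    funext i
    exact i.elim0
  rw [e]
  rfl

end Pool.Agent.Helper87.AU
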