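import Mathlib

/-!
# AU-5: asymptotics for encoded structures

Proof of `enc_asym`: `D = 12 * C + 12`. `n ^ n ≤ 3 ^ n * n!` (e.g. `Real.pow_div_factorial_le_exp` and
`exp 1 < 3`), `D ^ n * (m ^ (r + 1)) ^ n = n ^ n`. So it suffices that
`6 ^ n * C ^ n * (m + 2) ^ (c * (m + 1) ^ r) ≤ D ^ n`, and as `D ≥ 2 * (6 * C)`, that
`(m + 2) ^ (c * (m + 1) ^ r) ≤ 2 ^ n`, `n = D * m ^ (r + 1)`; this holds for `m` large
(`m + 2 ≤ 2 ^ k` for `k` of size `log m`, `c * (m + 1) ^ r * k ≤ m ^ (r + 1)`), i.e. for `n ≥ n₀`.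
-/

set_option autoImplicit false

namespace Pool.Agent.Helper87.AU

private theorem pow_self_le (n : ℕ) : n ^ n ≤ 3 ^ n * n.factorial := by
  have h1 := Real.pow_div_factorial_le_exp (n : ℝ) (Nat.cast_nonneg n) n
  have h2 : Real.exp (n : ℝ) ≤ 3 ^ n := by
    have h3 : Real.exp (n : ℝ) = Real.exp 1 ^ n := by
      rw [← Real.exp_nat_mul, mul_one]
    rw [h3]
    exact pow_le_pow_left₀ (Real.exp_pos 1).le (by linarith [Real.exp_one_lt_d9]) n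
  have h4 : (0 : ℝ) < (n.factorial : ℝ) := by exact_mod_cast n.factorial_pos
  have h5 : (n : ℝ) ^ n ≤ 3 ^ n * (n.factorial : ℝ) := by
    have h6 := h1.trans h2
    rwa [div_le_iff₀ h4] at h6
  exact_mod_cast h5

private theorem lin_le_two_pow (a k : ℕ) (hk : 2 * (a + 4) ≤ k) :
    (a + 1) * (k + 1) + 2 ≤ 2 ^ k := by
  obtain ⟨j, rfl⟩ : ∃ j, k = (a + 4) + j := ⟨k - (a + 4), by omega⟩
  have hj : a + 4 ≤ j := by omega
  have h1 : a + 3 < 2 ^ (a + 3) := Nat.lt_two_pow_self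
  have h2 : j < 2 ^ j := Nat.lt_two_pow_self
  have h3 : 2 * (a + 4) ≤ 2 ^ (a + 4) := by
    rw [pow_succ]
    omega
  have h4 : 2 * (a + 4) * (j + 1) ≤ 2 ^ (a + 4) * 2 ^ j := Nat.mul_le_mul h3 h2
  rw [pow_add]
  refine le_trans ?_ h4
  nlinarith

private theorem key_pow (r c : ℕ) : ∃ m₀ : ℕ, 1 ≤ m₀ ∧ ∀ m : ℕ, m₀ ≤ m →
    (m + 2) ^ (c * (m + 1) ^ r) ≤ 2 ^ (m ^ (r + 1)) := by
  refine ⟨(c * 2 ^ r + 1) * (2 * (c * 2 ^ r + 4)), Nat.succ_le_of_lt (by positivity), ?_⟩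
  intro m hm
  generalize ha : c * 2 ^ r = a at hm
  have hm1 : 1 ≤ m := le_trans (by nlinarith) hm
  set k := m / (a + 1) with hk
  have hk1 : (a + 1) * k ≤ m := Nat.mul_div_le m (a + 1)
  have hk2 : m < (a + 1) * (k + 1) := Nat.lt_mul_div_succ m (Nat.succ_pos a)
  have hk3 : 2 * (a + 4) ≤ k := by
    rw [hk, Nat.le_div_iff_mul_le (Nat.succ_pos a)]
    rw [mul_comm]
    exact hm
  have h1 := lin_le_two_pow a k hk3
  have h2 : m + 2 ≤ 2 ^ k := by omega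
  have h3 : (m + 1) ^ r ≤ 2 ^ r * m ^ r := by
    rw [← mul_pow]
    exact Nat.pow_le_pow_left (by omega) r
  have h4 : k * (c * (m + 1) ^ r) ≤ m ^ (r + 1) := by
    calc k * (c * (m + 1) ^ r) ≤ k * (c * (2 ^ r * m ^ r)) :=
          Nat.mul_le_mul_left _ (Nat.mul_le_mul_left _ h3)
      _ = (a * k) * m ^ r := by rw [← ha]; ring
      _ ≤ m * m ^ r := by
          apply Nat.mul_le_mul_right
          refine le_trans ?_ hk1
          exact Nat.mul_le_mul_right _ (Nat.le_succ a)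
      _ = m ^ (r + 1) := by ring
  calc (m + 2) ^ (c * (m + 1) ^ r) ≤ (2 ^ k) ^ (c * (m + 1) ^ r) := Nat.pow_le_pow_left h2 _
    _ = 2 ^ (k * (c * (m + 1) ^ r)) := by rw [← pow_mul]
    _ ≤ 2 ^ (m ^ (r + 1)) := Nat.pow_le_pow_right (by norm_num) h4

theorem enc_asym (r c C : ℕ) : ∃ D n₀ : ℕ, 1 ≤ D ∧ ∀ m n : ℕ, n₀ ≤ n →
    n = D * m ^ (r + 1) →
    2 ^ n * (m ^ (r + 1)) ^ n * (m + 2) ^ (c * (m + 1) ^ r) * C ^ n ≤ n.factorial := by
  obtain ⟨m₀, hm₀, hkey⟩ := key_pow r c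
  refine ⟨12 * C + 12, (12 * C + 12) * m₀ ^ (r + 1), by omega, ?_⟩
  intro m n hn hnm
  have hm : m₀ ≤ m := by
    by_contra hcon
    have h1 : m ^ (r + 1) < m₀ ^ (r + 1) := Nat.pow_lt_pow_left (by omega) (by omega)
    have h2 : (12 * C + 12) * m ^ (r + 1) < (12 * C + 12) * m₀ ^ (r + 1) :=
      Nat.mul_lt_mul_of_pos_left h1 (by omega)
    omega
  have h1 : (m + 2) ^ (c * (m + 1) ^ r) ≤ 2 ^ n := by
    refine (hkey m hm).trans (Nat.pow_le_pow_right (by norm_num) ?_)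
    rw [hnm]
    exact Nat.le_mul_of_pos_left _ (by omega)
  have h2 := pow_self_le n
  have h3 : n ^ n = (12 * C + 12) ^ n * (m ^ (r + 1)) ^ n := by
    rw [← mul_pow, ← hnm]
  have h4 : 3 ^ n * (2 ^ n * (m ^ (r + 1)) ^ n * (m + 2) ^ (c * (m + 1) ^ r) * C ^ n) ≤
      3 ^ n * n.factorial := by
    refine le_trans ?_ h2
    rw [h3]
    calc 3 ^ n * (2 ^ n * (m ^ (r + 1)) ^ n * (m + 2) ^ (c * (m + 1) ^ r) * C ^ n)
        ≤ 3 ^ n * (2 ^ n * (m ^ (r + 1)) ^ n * 2 ^ n * C ^ n) := by gcongr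
      _ = (3 * 2 * 2 * C) ^ n * (m ^ (r + 1)) ^ n := by
          rw [mul_pow, mul_pow, mul_pow]
          ring
      _ ≤ (12 * C + 12) ^ n * (m ^ (r + 1)) ^ n := by
          apply Nat.mul_le_mul_right
          apply Nat.pow_le_pow_left
          omega
  exact Nat.le_of_mul_le_mul_left h4 (by positivity)

end Pool.Agent.Helper87.AU
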