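import Pool.Agent.Helper87.AU.EncQuot

/-!
# AU-4: the number of encoded structures on `Fin n`

Proof of `enc_count`. Let `c` be the number of function symbols plus the number of relation symbols of `L`.
Let `n = D * m ^ (r + 1)`. For a structure `S` with `Enc` let `P : Finset (Fin n)` be the set of fixed points of
`cpi 0`. It has `m` elements: the map `Fin n → (Fin (r + 1) → P)` is surjective with fibres of `D` elements (see
`Enc.quot`; or use `Enc.quot`: the quotient has `m` elements because `k ↦ D * k ^ (r + 1)` is injective, and `q` is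
injective on `P` and maps it onto `M`). `S` is determined by: `P` (at most `2 ^ n` possibilities); the map
`Fin n → (Fin (r + 1) → P)` given by the coordinate functions (`(m ^ (r + 1)) ^ n`); for each function symbol
`f` of arity `t ≤ r` the restriction `(Fin t → P) → P` (`fE f v = fE f (cpi 0 ∘ v) ∈ P`;
at most `m ^ (m ^ t) ≤ (m + 2) ^ ((m + 1) ^ r)` possibilities), for each relation symbol of arity `t ≤ r` the restriction
`(Fin t → P) → Prop` (`2 ^ (m ^ t) ≤ (m + 2) ^ ((m + 1) ^ r)`). Together
`2 ^ n * (m ^ (r + 1)) ^ n * ((m + 2) ^ ((m + 1) ^ r)) ^ c`. Formally: an injection of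
the set of structures into a sigma type over `P` (with `|P| = m`), or: for each `P` with `m` elements an injection
of the structures with this `P` into a product of function types.
-/

set_option autoImplicit false

namespace Pool.Agent.Helper87.AU

open FirstOrder FirstOrder.Language Pool.Agent.Helper31.Spectra

/-- the fixed points of `cpi 0` -/
private def fixP (L : FirstOrder.Language.{0, 0}) (r n : ℕ)
    (S : (LE L (r + 1)).Structure (Fin n)) : Finset (Fin n) := by
  classical
  exact Finset.univ.filter (fun x => @cpi L (r + 1) (Fin n) S 0 x = x)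

private theorem mem_fixP {L : FirstOrder.Language.{0, 0}} {r n : ℕ}
    {S : (LE L (r + 1)).Structure (Fin n)} {x : Fin n} :
    x ∈ fixP L r n S ↔ @cpi L (r + 1) (Fin n) S 0 x = x := by
  simp [fixP]

/-- the data which determine an encoded structure with given set of fixed points -/
private abbrev Dat (L : FirstOrder.Language.{0, 0}) (r n : ℕ) (P : Finset (Fin n)) : Type :=
  (Fin n → Fin (r + 1) → P) × (∀ a : (Σ k, L.Functions k), (Fin a.1 → P) → P) ×
    (∀ b : (Σ k, L.Relations k), (Fin b.1 → P) → Prop)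

/-- the data of an encoded structure -/
private def dat {L : FirstOrder.Language.{0, 0}} {r D n : ℕ} (P : Finset (Fin n))
    (S : (LE L (r + 1)).Structure (Fin n)) (hS : @Enc L r D (Fin n) S)
    (hP : fixP L r n S = P) : Dat L r n P :=
  ⟨fun x i => ⟨@cpi L (r + 1) (Fin n) S i x,
      Eq.mp (congrArg (fun Q => @cpi L (r + 1) (Fin n) S i x ∈ Q) hP)
        (mem_fixP.2 (@Enc.idem L r D (Fin n) S hS i x))⟩,
    fun a w => ⟨@fE L (r + 1) (Fin n) S a.1 a.2 (fun t => (w t).1),
      Eq.mp (congrArg (fun Q => @fE L (r + 1) (Fin n) S a.1 a.2 (fun t => (w t).1) ∈ Q) hP)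
        (mem_fixP.2 (@Enc.fn L r D (Fin n) S hS a.1 a.2 _).2)⟩,
    fun b w => @rE L (r + 1) (Fin n) S b.1 b.2 (fun t => (w t).1)⟩

private theorem dat_inj {L : FirstOrder.Language.{0, 0}} {r D n : ℕ} (P : Finset (Fin n))
    (S S' : (LE L (r + 1)).Structure (Fin n)) (hS : @Enc L r D (Fin n) S)
    (hS' : @Enc L r D (Fin n) S') (hP : fixP L r n S = P) (hP' : fixP L r n S' = P)
    (h : dat P S hS hP = dat P S' hS' hP') : S = S' := by
  have h1 : ∀ x i, @cpi L (r + 1) (Fin n) S i x = @cpi L (r + 1) (Fin n) S' i x := by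
    intro x i
    have := congrArg (fun d : Dat L r n P => ((d.1 x i : P) : Fin n)) h
    exact this
  have h2 : ∀ (k : ℕ) (f : L.Functions k) (w : Fin k → P),
      @fE L (r + 1) (Fin n) S k f (fun t => (w t).1) =
        @fE L (r + 1) (Fin n) S' k f (fun t => (w t).1) := by
    intro k f w
    have := congrArg (fun d : Dat L r n P => ((d.2.1 ⟨k, f⟩ w : P) : Fin n)) h
    exact this
  have h3 : ∀ (k : ℕ) (R : L.Relations k) (w : Fin k → P),
      @rE L (r + 1) (Fin n) S k R (fun t => (w t).1) =
        @rE L (r + 1) (Fin n) S' k R (fun t => (w t).1) := by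
    intro k R w
    have := congrArg (fun d : Dat L r n P => d.2.2 ⟨k, R⟩ w) h
    exact this
  have hin : ∀ x, @cpi L (r + 1) (Fin n) S 0 x ∈ P := by
    intro x
    rw [← hP, mem_fixP]
    exact @Enc.idem L r D (Fin n) S hS 0 x
  have h2' : ∀ (k : ℕ) (f : L.Functions k) (v : Fin k → Fin n),
      @fE L (r + 1) (Fin n) S k f v = @fE L (r + 1) (Fin n) S' k f v := by
    intro k f v
    rw [← (@Enc.fn L r D (Fin n) S hS k f v).1, ← (@Enc.fn L r D (Fin n) S' hS' k f v).1]
    have := h2 k f (fun t => ⟨@cpi L (r + 1) (Fin n) S 0 (v t), hin (v t)⟩)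
    simp only at this
    rw [this]
    congr 1
    funext t
    exact h1 (v t) 0
  have h3' : ∀ (k : ℕ) (R : L.Relations k) (v : Fin k → Fin n),
      @rE L (r + 1) (Fin n) S k R v ↔ @rE L (r + 1) (Fin n) S' k R v := by
    intro k R v
    rw [← @Enc.rl L r D (Fin n) S hS k R v, ← @Enc.rl L r D (Fin n) S' hS' k R v]
    have := h3 k R (fun t => ⟨@cpi L (r + 1) (Fin n) S 0 (v t), hin (v t)⟩)
    simp only at this
    rw [this]
    have h4 : (fun t => @cpi L (r + 1) (Fin n) S 0 (v t)) =
        (fun t => @cpi L (r + 1) (Fin n) S' 0 (v t)) := by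
      funext t
      exact h1 (v t) 0
    rw [h4]
  apply Structure.ext
  · funext k f v
    rcases f with f | f
    · exact h2' k f v
    · cases f with
      | pi i =>
        have hv : v = ![v 0] := by
          funext t
          fin_cases t
          rfl
        rw [hv]
        exact h1 (v 0) i
  · funext k R v
    rcases R with R | R
    · exact propext (h3' k R v)
    · exact R.elim

private theorem card_fixP {L : FirstOrder.Language.{0, 0}} {r D m n : ℕ} (hD : 1 ≤ D)
    (hn : n = D * m ^ (r + 1)) (S : (LE L (r + 1)).Structure (Fin n))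
    (hS : @Enc L r D (Fin n) S) : (fixP L r n S).card = m := by
  obtain ⟨M, sM, q, hq, hcard⟩ := @Enc.quot L r D (Fin n) _ S hS
  rw [Nat.card_eq_fintype_card, Fintype.card_fin, hn] at hcard
  have hM : Nat.card M = m := by
    have h1 : m ^ (r + 1) = Nat.card M ^ (r + 1) := Nat.eq_of_mul_eq_mul_left (by omega) hcard
    exact (Nat.pow_left_injective (Nat.succ_ne_zero r) h1).symm
  rw [← hM]
  have hbij : Function.Bijective (fun x : fixP L r n S => q x.1) := by
    constructor
    · rintro ⟨x, hx⟩ ⟨y, hy⟩ hxy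
      rw [mem_fixP] at hx hy
      have h2 := (@IsQuot.ker L r (Fin n) M S sM q hq x y).1 hxy
      rw [hx, hy] at h2
      exact Subtype.ext h2
    · intro a
      obtain ⟨u, rfl⟩ := @IsQuot.surj L r (Fin n) M S sM q hq a
      refine ⟨⟨@cpi L (r + 1) (Fin n) S 0 u, ?_⟩, ?_⟩
      · rw [mem_fixP]
        exact @Enc.idem L r D (Fin n) S hS 0 u
      · exact (@IsQuot.ker L r (Fin n) M S sM q hq _ _).2 (@Enc.idem L r D (Fin n) S hS 0 u)
  rw [← Nat.card_eq_of_bijective _ hbij, Nat.card_eq_fintype_card, Fintype.card_coe]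

theorem enc_count {L : FirstOrder.Language.{0, 0}} (hL : FinVoc L) (r : ℕ)
    (har : ∀ n, r < n → IsEmpty (L.Functions n) ∧ IsEmpty (L.Relations n)) :
    ∃ c : ℕ, ∀ D m n : ℕ, 1 ≤ D → n = D * m ^ (r + 1) →
      Nat.card {S : (LE L (r + 1)).Structure (Fin n) // @Enc L r D (Fin n) S} ≤
        2 ^ n * (m ^ (r + 1)) ^ n * (m + 2) ^ (c * (m + 1) ^ r) := by
  classical
  obtain ⟨hF, hR⟩ := hL
  have := Fintype.ofFinite (Σ k, L.Functions k)
  have := Fintype.ofFinite (Σ k, L.Relations k)
  refine ⟨Fintype.card (Σ k, L.Functions k) + Fintype.card (Σ k, L.Relations k), ?_⟩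
  intro D m n hD hn
  have harF : ∀ a : (Σ k, L.Functions k), a.1 ≤ r := by
    rintro ⟨k, f⟩
    by_contra hk
    exact (har k (not_le.1 hk)).1.elim f
  have harR : ∀ a : (Σ k, L.Relations k), a.1 ≤ r := by
    rintro ⟨k, f⟩
    by_contra hk
    exact (har k (not_le.1 hk)).2.elim f
  let T : Type := Σ P : {P : Finset (Fin n) // P.card = m}, Dat L r n P.1
  have hinj : Function.Injective
      (fun S : {S : (LE L (r + 1)).Structure (Fin n) // @Enc L r D (Fin n) S} =>
        (⟨⟨fixP L r n S.1, card_fixP hD hn S.1 S.2⟩, dat (fixP L r n S.1) S.1 S.2 rfl⟩ : T)) := by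
    rintro ⟨S, hS⟩ ⟨S', hS'⟩ h
    simp only at h
    have key : ∀ (P : Finset (Fin n)) (hP : fixP L r n S = P) (hc : P.card = m),
        (⟨⟨fixP L r n S, card_fixP hD hn S hS⟩, dat (fixP L r n S) S hS rfl⟩ : T) =
          ⟨⟨P, hc⟩, dat P S hS hP⟩ := by
      rintro _ rfl _
      rfl
    have h1 : fixP L r n S = fixP L r n S' :=
      congrArg (fun t : T => (t.1.1 : Finset (Fin n))) h
    rw [key _ h1 (card_fixP hD hn S' hS')] at h
    have h2 := eq_of_heq (Sigma.mk.inj_iff.1 h).2
    exact Subtype.ext (dat_inj _ S S' hS hS' h1 rfl h2)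
  have hB : ∀ P : {P : Finset (Fin n) // P.card = m}, Nat.card (Dat L r n P.1) ≤
      (m ^ (r + 1)) ^ n * (m + 2) ^ ((Fintype.card (Σ k, L.Functions k) +
        Fintype.card (Σ k, L.Relations k)) * (m + 1) ^ r) := by
    rintro ⟨P, hP⟩
    have e1 : Nat.card P = m := by rw [Nat.card_eq_fintype_card, Fintype.card_coe, hP]
    have c1 : Nat.card (Fin n → Fin (r + 1) → P) = (m ^ (r + 1)) ^ n := by
      rw [Nat.card_fun, Nat.card_fun, e1, Nat.card_eq_fintype_card, Nat.card_eq_fintype_card,
        Fintype.card_fin, Fintype.card_fin]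
    have c2 : Nat.card (∀ a : (Σ k, L.Functions k), (Fin a.1 → P) → P) ≤
        ((m + 2) ^ ((m + 1) ^ r)) ^ Fintype.card (Σ k, L.Functions k) := by
      rw [Nat.card_pi, ← Finset.card_univ, ← Finset.prod_const]
      apply Finset.prod_le_prod'
      intro a _
      rw [Nat.card_fun, Nat.card_fun, e1, Nat.card_eq_fintype_card, Fintype.card_fin]
      calc m ^ m ^ a.1 ≤ (m + 2) ^ m ^ a.1 := Nat.pow_le_pow_left (by omega) _
        _ ≤ (m + 2) ^ (m + 1) ^ r := by
          apply Nat.pow_le_pow_right (by omega)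
          exact (Nat.pow_le_pow_left (by omega) _).trans
            (Nat.pow_le_pow_right (by omega) (harF a))
    have c3 : Nat.card (∀ b : (Σ k, L.Relations k), (Fin b.1 → P) → Prop) ≤
        ((m + 2) ^ ((m + 1) ^ r)) ^ Fintype.card (Σ k, L.Relations k) := by
      rw [Nat.card_pi, ← Finset.card_univ, ← Finset.prod_const]
      apply Finset.prod_le_prod'
      intro a _
      rw [Nat.card_fun, Nat.card_fun, e1, Nat.card_eq_fintype_card, Fintype.card_prop,
        Nat.card_eq_fintype_card, Fintype.card_fin]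
      calc 2 ^ m ^ a.1 ≤ (m + 2) ^ m ^ a.1 := Nat.pow_le_pow_left (by omega) _
        _ ≤ (m + 2) ^ (m + 1) ^ r := by
          apply Nat.pow_le_pow_right (by omega)
          exact (Nat.pow_le_pow_left (by omega) _).trans
            (Nat.pow_le_pow_right (by omega) (harR a))
    change Nat.card ((Fin n → Fin (r + 1) → P) × (∀ a : (Σ k, L.Functions k), (Fin a.1 → P) → P) ×
      (∀ b : (Σ k, L.Relations k), (Fin b.1 → P) → Prop)) ≤ _
    rw [Nat.card_prod, Nat.card_prod, c1]
    apply Nat.mul_le_mul_left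
    calc _ ≤ ((m + 2) ^ ((m + 1) ^ r)) ^ Fintype.card (Σ k, L.Functions k) *
          ((m + 2) ^ ((m + 1) ^ r)) ^ Fintype.card (Σ k, L.Relations k) :=
          Nat.mul_le_mul c2 c3
      _ = _ := by
          rw [← pow_add, ← pow_mul, mul_comm]
  have hfin : ∀ P : {P : Finset (Fin n) // P.card = m}, Finite (Dat L r n P.1) := by
    intro P
    infer_instance
  calc Nat.card {S : (LE L (r + 1)).Structure (Fin n) // @Enc L r D (Fin n) S}
      ≤ Nat.card T := Nat.card_le_card_of_injective _ hinj
    _ = ∑ P : {P : Finset (Fin n) // P.card = m}, Nat.card (Dat L r n P.1) := Nat.card_sigma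
    _ ≤ ∑ P : {P : Finset (Fin n) // P.card = m}, (m ^ (r + 1)) ^ n * (m + 2) ^
        ((Fintype.card (Σ k, L.Functions k) +
          Fintype.card (Σ k, L.Relations k)) * (m + 1) ^ r) := Finset.sum_le_sum fun P _ => hB P
    _ = Fintype.card {P : Finset (Fin n) // P.card = m} * ((m ^ (r + 1)) ^ n * (m + 2) ^
        ((Fintype.card (Σ k, L.Functions k) +
          Fintype.card (Σ k, L.Relations k)) * (m + 1) ^ r)) := by
        rw [Finset.sum_const, smul_eq_mul, Finset.card_univ]
    _ ≤ 2 ^ n * ((m ^ (r + 1)) ^ n * (m + 2) ^ ((Fintype.card (Σ k, L.Functions k) +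
          Fintype.card (Σ k, L.Relations k)) * (m + 1) ^ r)) := by
        apply Nat.mul_le_mul_right
        calc Fintype.card {P : Finset (Fin n) // P.card = m} ≤ Fintype.card (Finset (Fin n)) :=
              Fintype.card_subtype_le _
          _ = 2 ^ n := by rw [Fintype.card_finset, Fintype.card_fin]
    _ = _ := by rw [mul_assoc]

end Pool.Agent.Helper87.AU
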