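import Pool.Agent.Helper31.Spectra

/-!
# AU: encoding a structure `M` of size `m` in a structure of size `D * m ^ (r + 1)`, definitions

The language `LE L r` has the symbols of `L` and `r` unary function symbols, the coordinate functions
`cpi L r i`. `Enc L r D U`: the `LE L (r + 1)`-structure `U` is an encoded structure. The values of the
coordinate functions are the fixed points of `cpi 0` (representatives of the points of `M`), the
coordinates of a point are arbitrary, exactly `D` points have given coordinates, and the functions and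
relations of `L` depend only on `cpi 0` of the arguments, the functions have fixed points of `cpi 0`
as values.
-/

set_option autoImplicit false

namespace Pool.Agent.Helper87.AU

open FirstOrder FirstOrder.Language

/-- Unary function symbols. -/
inductive PiFun (r : ℕ) : ℕ → Type
  | pi (i : Fin r) : PiFun r 1

/-- The language of the coordinate functions. -/
abbrev LPi (r : ℕ) : FirstOrder.Language.{0, 0} := ⟨PiFun r, fun _ => Empty⟩

/-- The language of encoded structures. -/
abbrev LE (L : FirstOrder.Language.{0, 0}) (r : ℕ) : FirstOrder.Language.{0, 0} := L.sum (LPi r)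

/-- The coordinate functions. -/
def cpi (L : FirstOrder.Language.{0, 0}) (r : ℕ) {U : Type} [(LE L r).Structure U] (i : Fin r)
    (x : U) : U := Structure.funMap (L := LE L r) (Sum.inr (PiFun.pi i)) ![x]

/-- The functions of `L`. -/
def fE (L : FirstOrder.Language.{0, 0}) (r : ℕ) {U : Type} [(LE L r).Structure U] {n : ℕ}
    (f : L.Functions n) (v : Fin n → U) : U :=
  Structure.funMap (L := LE L r) (Sum.inl f) v

/-- The relations of `L`. -/
def rE (L : FirstOrder.Language.{0, 0}) (r : ℕ) {U : Type} [(LE L r).Structure U] {n : ℕ}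
    (R : L.Relations n) (v : Fin n → U) : Prop :=
  Structure.RelMap (L := LE L r) (Sum.inl R) v

/-- Encoded structures. -/
structure Enc (L : FirstOrder.Language.{0, 0}) (r D : ℕ) (U : Type)
    [(LE L (r + 1)).Structure U] : Prop where
  idem : ∀ (i : Fin (r + 1)) (x : U), cpi L (r + 1) 0 (cpi L (r + 1) i x) = cpi L (r + 1) i x
  surj : ∀ z : Fin (r + 1) → U, ∃ x : U, ∀ i, cpi L (r + 1) i x = cpi L (r + 1) 0 (z i)
  fib : ∀ x : U, Nat.card {y : U // ∀ i, cpi L (r + 1) i y = cpi L (r + 1) i x} = D
  fn : ∀ (n : ℕ) (f : L.Functions n) (v : Fin n → U),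
    fE L (r + 1) f (fun t => cpi L (r + 1) 0 (v t)) = fE L (r + 1) f v ∧
      cpi L (r + 1) 0 (fE L (r + 1) f v) = fE L (r + 1) f v
  rl : ∀ (n : ℕ) (R : L.Relations n) (v : Fin n → U),
    rE L (r + 1) R (fun t => cpi L (r + 1) 0 (v t)) ↔ rE L (r + 1) R v

/-- `q : U → M` is the quotient map of an encoded structure. -/
structure IsQuot (L : FirstOrder.Language.{0, 0}) (r : ℕ) {U M : Type}
    [(LE L (r + 1)).Structure U] [L.Structure M] (q : U → M) : Prop where
  surj : Function.Surjective q
  ker : ∀ x y, q x = q y ↔ cpi L (r + 1) 0 x = cpi L (r + 1) 0 y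
  fn : ∀ (n : ℕ) (f : L.Functions n) (v : Fin n → U),
    q (fE L (r + 1) f v) = Structure.funMap f (q ∘ v)
  rl : ∀ (n : ℕ) (R : L.Relations n) (v : Fin n → U),
    rE L (r + 1) R v ↔ Structure.RelMap R (q ∘ v)

end Pool.Agent.Helper87.AU
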