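import Pool.Agent.Helper87.AU.EncDefs

/-!
# AU-3: encoded structures and their quotients

* `Enc.quot`: `M = {x : U // cpi 0 x = x}`, `q x = ⟨cpi 0 x, _⟩` (`idem` for `i = 0`),
  `funMap f v = ⟨fE f (fun t => (v t).1), _⟩` (`fn`), `RelMap R v = rE R (fun t => (v t).1)`. `IsQuot`: surjective since
  `q x = x` for fixed points; `ker` clear; `fn`: `q (fE f v) = fE f v = fE f (cpi 0 ∘ v)`; `rl` similarly.
  Cardinality: the map `U → (Fin (r + 1) → M)`, `x ↦ (i ↦ ⟨cpi i x, idem⟩)` is surjective (`surj` with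
  `z i = (y i).1`, as `cpi 0 (y i).1 = (y i).1`) and all its fibres have exactly `D` elements (`fib`), so
  `|U| = D * |M| ^ (r + 1)` (`Nat.card_sigma`/`Equiv.sigmaFiberEquiv`, or `Fintype.card_eq_sum_card_fiberwise`).
* `exists_enc`: `U = (Fin (r + 1) → M) × Fin D`, `e a = (fun _ => a, 0)`, `q (x, d) = x 0`, coordinate functions
  `cpi i (x, d) = e (x i)`, `fE f v = e (funMap f (q ∘ v))`, `rE R v = RelMap R (q ∘ v)`.
-/

set_option autoImplicit false

namespace Pool.Agent.Helper87.AU

open FirstOrder FirstOrder.Language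

theorem Enc.quot {L : FirstOrder.Language.{0, 0}} {r D : ℕ} {U : Type} [Finite U]
    [(LE L (r + 1)).Structure U] (h : Enc L r D U) :
    ∃ (M : Type) (_ : L.Structure M) (q : U → M), IsQuot L r q ∧
      Nat.card U = D * Nat.card M ^ (r + 1) := by
  classical
  let M : Type := {x : U // cpi L (r + 1) 0 x = x}
  let sM : L.Structure M :=
    { funMap := fun {n} f v => ⟨fE L (r + 1) f (fun t => (v t).1), (h.fn n f _).2⟩
      RelMap := fun {n} R v => rE L (r + 1) R (fun t => (v t).1) }
  let q : U → M := fun x => ⟨cpi L (r + 1) 0 x, h.idem 0 x⟩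
  refine ⟨M, sM, q, ⟨?_, ?_, ?_, ?_⟩, ?_⟩
  · intro x
    exact ⟨x.1, Subtype.ext x.2⟩
  · intro x y
    exact Subtype.ext_iff
  · intro n f v
    exact Subtype.ext ((h.fn n f v).2.trans (h.fn n f v).1.symm)
  · intro n R v
    exact (h.rl n R v).symm
  · let g : U → (Fin (r + 1) → M) := fun x i => ⟨cpi L (r + 1) i x, h.idem i x⟩
    have hg : ∀ y : Fin (r + 1) → M, Nat.card {x : U // g x = y} = D := by
      intro y
      obtain ⟨x, hx⟩ := h.surj (fun i => (y i).1)
      have hx' : ∀ i, cpi L (r + 1) i x = (y i).1 := fun i => (hx i).trans (y i).2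
      rw [← h.fib x]
      refine Nat.card_congr (Equiv.subtypeEquivRight fun z => ?_)
      constructor
      · intro hz i
        rw [hx' i, ← hz]
      · intro hz
        funext i
        exact Subtype.ext ((hz i).trans (hx' i))
    have hfin : Finite M := inferInstanceAs (Finite {x : U // cpi L (r + 1) 0 x = x})
    have : Fintype (Fin (r + 1) → M) := Fintype.ofFinite _
    rw [Nat.card_congr (Equiv.sigmaFiberEquiv g).symm, Nat.card_sigma,
      Finset.sum_congr rfl (fun y _ => hg y), Finset.sum_const, smul_eq_mul, mul_comm,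
      Finset.card_univ, ← Nat.card_eq_fintype_card, Nat.card_fun,
      Nat.card_eq_fintype_card (α := Fin (r + 1)), Fintype.card_fin]

/-- The functions of the standard encoded structure. -/
def encFun (L : FirstOrder.Language.{0, 0}) (r D : ℕ) (M : Type) [L.Structure M] (o : Fin D) :
    {n : ℕ} → (L.Functions n ⊕ PiFun (r + 1) n) → (Fin n → (Fin (r + 1) → M) × Fin D) →
      (Fin (r + 1) → M) × Fin D
  | _, Sum.inl f, v => (fun _ => Structure.funMap f (fun t => (v t).1 0), o)
  | _, Sum.inr (PiFun.pi i), v => (fun _ => (v 0).1 i, o)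

/-- The relations of the standard encoded structure. -/
def encRel (L : FirstOrder.Language.{0, 0}) (r D : ℕ) (M : Type) [L.Structure M] :
    {n : ℕ} → (L.Relations n ⊕ Empty) → (Fin n → (Fin (r + 1) → M) × Fin D) → Prop
  | _, Sum.inl R, v => Structure.RelMap R (fun t => (v t).1 0)
  | _, Sum.inr e, _ => e.elim

/-- The standard encoded structure. -/
@[instance_reducible]
def encStr (L : FirstOrder.Language.{0, 0}) (r D : ℕ) (M : Type) [L.Structure M] (o : Fin D) :
    (LE L (r + 1)).Structure ((Fin (r + 1) → M) × Fin D) where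
  funMap := fun f v => encFun L r D M o f v
  RelMap := fun R v => encRel L r D M R v

theorem exists_enc {L : FirstOrder.Language.{0, 0}} (r : ℕ) {D : ℕ} (hD : 1 ≤ D) (M : Type)
    [Finite M] [L.Structure M] :
    ∃ (U : Type) (_ : (LE L (r + 1)).Structure U) (q : U → M), Enc L r D U ∧
      IsQuot L r q ∧ Nat.card U = D * Nat.card M ^ (r + 1) := by
  classical
  let o : Fin D := ⟨0, hD⟩
  let sU : (LE L (r + 1)).Structure ((Fin (r + 1) → M) × Fin D) := encStr L r D M o
  have hc : ∀ (i : Fin (r + 1)) (x : (Fin (r + 1) → M) × Fin D),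
      cpi L (r + 1) i x = (fun _ => x.1 i, o) := fun i x => rfl
  have hinj : ∀ (i : Fin (r + 1)) (x y : (Fin (r + 1) → M) × Fin D),
      cpi L (r + 1) i x = cpi L (r + 1) i y ↔ x.1 i = y.1 i := by
    intro i x y
    rw [hc, hc]
    constructor
    · intro h
      have h1 := congrArg Prod.fst h
      exact congrFun h1 0
    · intro h
      rw [h]
  refine ⟨(Fin (r + 1) → M) × Fin D, sU, fun x => x.1 0, ⟨?_, ?_, ?_, ?_, ?_⟩,
    ⟨?_, ?_, ?_, ?_⟩, ?_⟩
  · intro i x
    rfl
  · intro z
    exact ⟨(fun i => (z i).1 0, o), fun i => rfl⟩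
  · intro x
    have e : {y : (Fin (r + 1) → M) × Fin D // ∀ i, cpi L (r + 1) i y = cpi L (r + 1) i x} ≃
        Fin D :=
      { toFun := fun y => y.1.2
        invFun := fun d => ⟨(x.1, d), fun i => (hinj i _ _).2 rfl⟩
        left_inv := by
          rintro ⟨⟨y, d⟩, hy⟩
          refine Subtype.ext (Prod.ext ?_ rfl)
          funext i
          exact ((hinj i _ _).1 (hy i)).symm
        right_inv := fun d => rfl }
    rw [Nat.card_congr e, Nat.card_eq_fintype_card, Fintype.card_fin]
  · intro n f v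
    exact ⟨rfl, rfl⟩
  · intro n R v
    exact Iff.rfl
  · intro a
    exact ⟨(fun _ => a, o), rfl⟩
  · intro x y
    exact (hinj 0 x y).symm
  · intro n f v
    rfl
  · intro n R v
    exact Iff.rfl
  · rw [Nat.card_prod, Nat.card_fun, Nat.card_eq_fintype_card (α := Fin (r + 1)),
      Fintype.card_fin, Nat.card_eq_fintype_card (α := Fin D), Fintype.card_fin, mul_comm]

end Pool.Agent.Helper87.AU
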