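import Pool.Agent.Helper87.AU.EncDefs
import Pool.Agent.Helper87.AU.UDef

/-!
# AU-2: encoded structures are axiomatisable

Proof of `enc_sentence` with the closure properties of `UDef` (file `UDef.lean`; read it first). Each field of
`Enc` is a property `UDef (LE L (r + 1)) Empty`; `UDef.exists_sentence` at the end.
* `idem`: `allFin` over `i`, `allu`, `termEq` with the terms `Term.func (Sum.inr (PiFun.pi i)) ![Term.var _]`
  (their values are `cpi L (r + 1) i _`).
* `surj`: `all` over `z : Fin (r + 1) → U`, `exu`, `allFin`, `termEq`.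
* `fib`: for `D ≥ 1`, `Nat.card {y // Q x y} = D` iff there is `w : Fin D → U` with
  `∀ d d', d ≠ d' → w d ≠ w d'` and `∀ y, Q x y ↔ ∃ d, w d = y` (a set with `Nat.card = D ≥ 1` is finite).
  Use `allu`, `ex`, `and`, `allFin`, `allu`, `iff`, `exFin`, `varEq`.
* `fn`, `rl`: finitely many symbols (`FinVoc L`): `allFin` over `Σ n, L.Functions n` and `Σ n, L.Relations n`
  (rewrite `∀ n f` as `∀ x : Σ n, ..`), `all` over the arguments, `termEq`, `rel`.
-/

set_option autoImplicit false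

namespace Pool.Agent.Helper87.AU

open FirstOrder FirstOrder.Language Pool.Agent.Helper31.Spectra

/-- The term for a coordinate function. -/
private def tpi (L : FirstOrder.Language.{0, 0}) (r : ℕ) {α : Type} (i : Fin r)
    (t : (LE L r).Term α) : (LE L r).Term α :=
  Term.func (L := LE L r) (Sum.inr (PiFun.pi i)) ![t]

private theorem realize_tpi (L : FirstOrder.Language.{0, 0}) (r : ℕ) {α : Type} (i : Fin r)
    (t : (LE L r).Term α) {U : Type} [(LE L r).Structure U] (v : α → U) :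
    (tpi L r i t).realize v = cpi L r i (t.realize v) := by
  rw [tpi, Term.realize_func, cpi]
  congr 1
  funext j
  rw [Subsingleton.elim j 0]
  rfl

/-- The term for a function of `L`. -/
private def tfn (L : FirstOrder.Language.{0, 0}) (r : ℕ) {α : Type} {n : ℕ} (f : L.Functions n)
    (ts : Fin n → (LE L r).Term α) : (LE L r).Term α :=
  Term.func (L := LE L r) (Sum.inl f) ts

private theorem realize_tfn (L : FirstOrder.Language.{0, 0}) (r : ℕ) {α : Type} {n : ℕ}
    (f : L.Functions n) (ts : Fin n → (LE L r).Term α) {U : Type} [(LE L r).Structure U]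
    (v : α → U) : (tfn L r f ts).realize v = fE L r f (fun t => (ts t).realize v) := by
  rw [tfn, Term.realize_func, fE]

private theorem card_iff {U : Type} {D : ℕ} (hD : 1 ≤ D) (Q : U → Prop) :
    Nat.card {y // Q y} = D ↔ ∃ w : Fin D → U, (∀ d d', d ≠ d' → ¬ w d = w d') ∧
      ∀ y, (Q y ↔ ∃ d, w d = y) := by
  constructor
  · intro h
    have hfin : Finite {y // Q y} := Nat.finite_of_card_ne_zero (by omega)
    let e : {y // Q y} ≃ Fin D := Finite.equivFinOfCardEq h
    refine ⟨fun d => (e.symm d).1, fun d d' hne he => hne ?_, fun y => ⟨fun hy => ?_, ?_⟩⟩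
    · exact e.symm.injective (Subtype.ext he)
    · exact ⟨e ⟨y, hy⟩, by
        show (e.symm (e ⟨y, hy⟩)).1 = y
        rw [Equiv.symm_apply_apply]⟩
    · rintro ⟨d, rfl⟩
      exact (e.symm d).2
  · rintro ⟨w, hw1, hw2⟩
    have hb : Function.Bijective (fun d => (⟨w d, (hw2 (w d)).2 ⟨d, rfl⟩⟩ : {y // Q y})) := by
      constructor
      · intro d d' he
        by_contra hne
        exact hw1 d d' hne (congrArg Subtype.val he)
      · rintro ⟨y, hy⟩
        obtain ⟨d, hd⟩ := (hw2 y).1 hy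
        exact ⟨d, Subtype.ext hd⟩
    rw [← Nat.card_congr (Equiv.ofBijective _ hb), Nat.card_eq_fintype_card, Fintype.card_fin]

private theorem udef_idem (L : FirstOrder.Language.{0, 0}) (r : ℕ) :
    UDef (LE L (r + 1)) Empty (fun U _ _ => ∀ (i : Fin (r + 1)) (x : U),
      cpi L (r + 1) 0 (cpi L (r + 1) i x) = cpi L (r + 1) i x) := by
  refine UDef.allFin fun i => UDef.allu
    (P := fun U _ _ x => cpi L (r + 1) 0 (cpi L (r + 1) i x) = cpi L (r + 1) i x) ?_
  refine (UDef.termEq (tpi L (r + 1) 0 (tpi L (r + 1) i (Term.var (Sum.inr ()))))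
    (tpi L (r + 1) i (Term.var (Sum.inr ())))).congr ?_
  intro U _ v
  rw [realize_tpi, realize_tpi, Term.realize_var]

private theorem udef_surj (L : FirstOrder.Language.{0, 0}) (r : ℕ) :
    UDef (LE L (r + 1)) Empty (fun U _ _ => ∀ z : Fin (r + 1) → U, ∃ x : U,
      ∀ i, cpi L (r + 1) i x = cpi L (r + 1) 0 (z i)) := by
  refine UDef.all (β := Fin (r + 1)) (P := fun U _ _ z => ∃ x : U,
      ∀ i, cpi L (r + 1) i x = cpi L (r + 1) 0 (z i)) ?_
  refine UDef.exu (P := fun U _ v x => ∀ i, cpi L (r + 1) i x =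
      cpi L (r + 1) 0 ((v ∘ Sum.inr) i)) ?_
  refine UDef.allFin fun i => ?_
  refine (UDef.termEq (tpi L (r + 1) i (Term.var (Sum.inr ())))
    (tpi L (r + 1) 0 (Term.var (Sum.inl (Sum.inr i))))).congr ?_
  intro U _ v
  rw [realize_tpi, realize_tpi, Term.realize_var, Term.realize_var]
  rfl

private theorem udef_fib (L : FirstOrder.Language.{0, 0}) (r D : ℕ) (hD : 1 ≤ D) :
    UDef (LE L (r + 1)) Empty (fun U _ _ => ∀ x : U,
      Nat.card {y : U // ∀ i, cpi L (r + 1) i y = cpi L (r + 1) i x} = D) := by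
  have h1 : UDef (LE L (r + 1)) Empty (fun U _ _ => ∀ x : U, ∃ w : Fin D → U,
      (∀ d d', d ≠ d' → ¬ w d = w d') ∧
      ∀ y, ((∀ i, cpi L (r + 1) i y = cpi L (r + 1) i x) ↔ ∃ d, w d = y)) := by
    refine UDef.allu (P := fun U _ _ x => ∃ w : Fin D → U,
      (∀ d d', d ≠ d' → ¬ w d = w d') ∧
      ∀ y, ((∀ i, cpi L (r + 1) i y = cpi L (r + 1) i x) ↔ ∃ d, w d = y)) ?_
    refine UDef.ex (β := Fin D) (P := fun U _ v w =>
      (∀ d d', d ≠ d' → ¬ w d = w d') ∧
      ∀ y, ((∀ i, cpi L (r + 1) i y = cpi L (r + 1) i (v (Sum.inr ()))) ↔ ∃ d, w d = y)) ?_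
    refine UDef.and ?_ ?_
    · refine UDef.allFin fun d => UDef.allFin fun d' => UDef.imp (UDef.const _) ?_
      exact ((UDef.varEq (Sum.inr d) (Sum.inr d')).congr fun _ _ _ => Iff.rfl).not
    · refine UDef.allu (P := fun U _ v y =>
        ((∀ i, cpi L (r + 1) i y = cpi L (r + 1) i ((v ∘ Sum.inl) (Sum.inr ()))) ↔
          ∃ d, (v ∘ Sum.inr) d = y)) ?_
      refine UDef.iff ?_ ?_
      · refine UDef.allFin fun i => ?_
        refine (UDef.termEq (tpi L (r + 1) i (Term.var (Sum.inr ())))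
          (tpi L (r + 1) i (Term.var (Sum.inl (Sum.inl (Sum.inr ())))))).congr ?_
        intro U _ v
        rw [realize_tpi, realize_tpi, Term.realize_var, Term.realize_var]
        rfl
      · refine UDef.exFin fun d => ?_
        exact (UDef.varEq (Sum.inl (Sum.inr d)) (Sum.inr ())).congr fun _ _ _ => Iff.rfl
  refine h1.congr ?_
  intro U _ v
  exact forall_congr' fun x => (card_iff hD _).symm

private theorem udef_fn {L : FirstOrder.Language.{0, 0}} (hL : FinVoc L) (r : ℕ) :
    UDef (LE L (r + 1)) Empty (fun U _ _ => ∀ (n : ℕ) (f : L.Functions n) (v : Fin n → U),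
      fE L (r + 1) f (fun t => cpi L (r + 1) 0 (v t)) = fE L (r + 1) f v ∧
      cpi L (r + 1) 0 (fE L (r + 1) f v) = fE L (r + 1) f v) := by
  have hfin := hL.1
  have h1 : UDef (LE L (r + 1)) Empty (fun U _ _ => ∀ (g : Σ n, L.Functions n)
      (v : Fin g.1 → U),
      fE L (r + 1) g.2 (fun t => cpi L (r + 1) 0 (v t)) = fE L (r + 1) g.2 v ∧
      cpi L (r + 1) 0 (fE L (r + 1) g.2 v) = fE L (r + 1) g.2 v) := by
    refine UDef.allFin fun g => UDef.all (β := Fin g.1) (P := fun U _ _ v =>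
      fE L (r + 1) g.2 (fun t => cpi L (r + 1) 0 (v t)) = fE L (r + 1) g.2 v ∧
      cpi L (r + 1) 0 (fE L (r + 1) g.2 v) = fE L (r + 1) g.2 v) ?_
    refine UDef.and ?_ ?_
    · refine (UDef.termEq (tfn L (r + 1) g.2 (fun t => tpi L (r + 1) 0 (Term.var (Sum.inr t))))
        (tfn L (r + 1) g.2 (fun t => Term.var (Sum.inr t)))).congr ?_
      intro U _ v
      rw [realize_tfn, realize_tfn]
      simp only [realize_tpi, Term.realize_var]
      rfl
    · refine (UDef.termEq (tpi L (r + 1) 0 (tfn L (r + 1) g.2 (fun t => Term.var (Sum.inr t))))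
        (tfn L (r + 1) g.2 (fun t => Term.var (Sum.inr t)))).congr ?_
      intro U _ v
      rw [realize_tpi, realize_tfn]
      simp only [Term.realize_var]
      rfl
  exact h1.congr fun U _ v => ⟨fun h n f w => h ⟨n, f⟩ w, fun h g w => h g.1 g.2 w⟩

private theorem udef_rl {L : FirstOrder.Language.{0, 0}} (hL : FinVoc L) (r : ℕ) :
    UDef (LE L (r + 1)) Empty (fun U _ _ => ∀ (n : ℕ) (R : L.Relations n) (v : Fin n → U),
      (rE L (r + 1) R (fun t => cpi L (r + 1) 0 (v t)) ↔ rE L (r + 1) R v)) := by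
  have hfin := hL.2
  have h1 : UDef (LE L (r + 1)) Empty (fun U _ _ => ∀ (g : Σ n, L.Relations n)
      (v : Fin g.1 → U),
      (rE L (r + 1) g.2 (fun t => cpi L (r + 1) 0 (v t)) ↔ rE L (r + 1) g.2 v)) := by
    refine UDef.allFin fun g => UDef.all (β := Fin g.1) (P := fun U _ _ v =>
      (rE L (r + 1) g.2 (fun t => cpi L (r + 1) 0 (v t)) ↔ rE L (r + 1) g.2 v)) ?_
    refine UDef.iff ?_ ?_
    · refine (UDef.rel (L := LE L (r + 1)) (Sum.inl g.2)
        (fun t => tpi L (r + 1) 0 (Term.var (Sum.inr t)))).congr ?_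
      intro U _ v
      simp only [realize_tpi, Term.realize_var]
      rfl
    · refine (UDef.rel (L := LE L (r + 1)) (Sum.inl g.2)
        (fun t => Term.var (Sum.inr t))).congr ?_
      intro U _ v
      simp only [Term.realize_var]
      rfl
  exact h1.congr fun U _ v => ⟨fun h n f w => h ⟨n, f⟩ w, fun h g w => h g.1 g.2 w⟩

theorem enc_sentence {L : FirstOrder.Language.{0, 0}} (hL : FinVoc L) (r D : ℕ) (hD : 1 ≤ D) :
    ∃ θ : (LE L (r + 1)).Sentence, ∀ (U : Type) [(LE L (r + 1)).Structure U],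
      θ.Realize U ↔ Enc L r D U := by
  have h := (udef_idem L r).and ((udef_surj L r).and ((udef_fib L r D hD).and
    ((udef_fn hL r).and (udef_rl hL r))))
  obtain ⟨θ, hθ⟩ := h.exists_sentence
  refine ⟨θ, fun U _ => ?_⟩
  rw [hθ U]
  exact ⟨fun h => ⟨h.1, h.2.1, h.2.2.1, h.2.2.2.1, h.2.2.2.2⟩,
    fun h => ⟨h.idem, h.surj, h.fib, h.fn, h.rl⟩⟩

end Pool.Agent.Helper87.AU
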