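import Pool.Agent.Helper87.AU.EncDefs

/-!
# AU-1: sentences about the quotient

Proof of `exists_tr`. For a term `t` of `L` let `t'` be the same term in `LE L (r + 1)`
(`LHom.sumInl.onTerm`). Define by recursion a formula `tr ψ` for bounded formulas `ψ : L.BoundedFormula Empty n`:
`falsum`, `imp`, `all` unchanged, `rel R ts ↦ rel (inl R) (ts')`,
`equal t₁ t₂ ↦ equal (π₀ t₁') (π₀ t₂')` where `π₀ t = Term.func (Sum.inr (PiFun.pi 0)) ![t]`. Terms:
`q (t'.realize v) = t.realize (q ∘ v)` (`IsQuot.fn`). Then for `xs : Fin n → U`: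
`(tr ψ).Realize default xs ↔ ψ.Realize default (q ∘ xs)` by induction on `ψ`: `equal` by `IsQuot.ker`, `rel` by
`IsQuot.rl`, `all` by surjectivity of `q`.
-/

set_option autoImplicit false

namespace Pool.Agent.Helper87.AU

open FirstOrder FirstOrder.Language

/-- Translation of terms. -/
private def trT {L : FirstOrder.Language.{0, 0}} (r : ℕ) {α : Type} :
    L.Term α → (LE L (r + 1)).Term α
  | Term.var a => Term.var a
  | @Term.func _ _ n f ts => Term.func (l := n) (Sum.inl f) (fun i => trT r (ts i))

/-- Translation of bounded formulas. -/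
private def trF {L : FirstOrder.Language.{0, 0}} (r : ℕ) :
    {n : ℕ} → L.BoundedFormula Empty n → (LE L (r + 1)).BoundedFormula Empty n
  | _, BoundedFormula.falsum => BoundedFormula.falsum
  | _, BoundedFormula.equal t₁ t₂ =>
      BoundedFormula.equal (Term.func (l := 1) (Sum.inr (PiFun.pi 0)) ![trT r t₁])
        (Term.func (l := 1) (Sum.inr (PiFun.pi 0)) ![trT r t₂])
  | _, @BoundedFormula.rel _ _ _ l R ts =>
      BoundedFormula.rel (l := l) (Sum.inl R) (fun i => trT r (ts i))
  | _, BoundedFormula.imp f g => BoundedFormula.imp (trF r f) (trF r g)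
  | _, BoundedFormula.all f => BoundedFormula.all (trF r f)

private theorem realize_trT {L : FirstOrder.Language.{0, 0}} (r : ℕ) {U M : Type}
    [(LE L (r + 1)).Structure U] [L.Structure M] (q : U → M) (hq : IsQuot L r q) {α : Type}
    (v : α → U) (t : L.Term α) : q ((trT r t).realize v) = t.realize (q ∘ v) := by
  induction t with
  | var a => rfl
  | @func n f ts ih =>
    have h := hq.fn n f (fun i => (trT r (ts i)).realize v)
    have h2 : (q ∘ fun i => (trT r (ts i)).realize v) = fun i => (ts i).realize (q ∘ v) := by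
      funext i
      exact ih i
    rw [h2] at h
    exact h

private theorem realize_trF {L : FirstOrder.Language.{0, 0}} (r : ℕ) {U M : Type}
    [(LE L (r + 1)).Structure U] [L.Structure M] (q : U → M) (hq : IsQuot L r q) {n : ℕ}
    (ψ : L.BoundedFormula Empty n) (v : Empty → U) (xs : Fin n → U) :
    (trF r ψ).Realize v xs ↔ ψ.Realize (q ∘ v) (q ∘ xs) := by
  induction ψ with
  | falsum => exact Iff.rfl
  | @equal n t₁ t₂ =>
    have e1 := realize_trT r q hq (Sum.elim v xs) t₁
    have e2 := realize_trT r q hq (Sum.elim v xs) t₂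
    rw [Sum.comp_elim] at e1 e2
    have h := hq.ker ((trT r t₁).realize (Sum.elim v xs)) ((trT r t₂).realize (Sum.elim v xs))
    rw [e1, e2] at h
    have key : ∀ t : (LE L (r + 1)).Term (Empty ⊕ Fin n),
        (Term.func (l := 1) (Sum.inr (PiFun.pi 0) : (LE L (r + 1)).Functions 1) ![t]).realize
          (Sum.elim v xs) = cpi L (r + 1) 0 (t.realize (Sum.elim v xs)) := by
      intro t
      show Structure.funMap (L := LE L (r + 1)) _ _ = Structure.funMap (L := LE L (r + 1)) _ _
      congr 1
      funext i
      have hi : i = 0 := Subsingleton.elim _ _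
      subst hi
      rfl
    show (Term.realize _ _ = Term.realize _ _) ↔ _
    rw [key, key]
    exact h.symm
  | @rel n l R ts =>
    have h := hq.rl l R (fun i => (trT r (ts i)).realize (Sum.elim v xs))
    have h2 : (q ∘ fun i => (trT r (ts i)).realize (Sum.elim v xs)) =
        fun i => (ts i).realize (Sum.elim (q ∘ v) (q ∘ xs)) := by
      funext i
      have := realize_trT r q hq (Sum.elim v xs) (ts i)
      rw [Sum.comp_elim] at this
      exact this
    rw [h2] at h
    exact h
  | imp f g ihf ihg =>
    show ((trF r f).Realize v xs → (trF r g).Realize v xs) ↔ _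
    rw [ihf, ihg]
    exact Iff.rfl
  | all f ih =>
    show (∀ x, (trF r f).Realize v (Fin.snoc xs x)) ↔
      ∀ y, f.Realize (q ∘ v) (Fin.snoc (q ∘ xs) y)
    constructor
    · intro h y
      obtain ⟨x, rfl⟩ := hq.surj y
      have := (ih (Fin.snoc xs x)).1 (h x)
      rwa [Fin.comp_snoc] at this
    · intro h x
      refine (ih (Fin.snoc xs x)).2 ?_
      rw [Fin.comp_snoc]
      exact h (q x)

theorem exists_tr {L : FirstOrder.Language.{0, 0}} (r : ℕ) (ψ : L.Sentence) :
    ∃ ψ' : (LE L (r + 1)).Sentence, ∀ (U : Type) [(LE L (r + 1)).Structure U] (M : Type)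
      [L.Structure M] (q : U → M), IsQuot L r q → (ψ'.Realize U ↔ ψ.Realize M) := by
  refine ⟨trF r ψ, ?_⟩
  intro U _ M _ q hq
  have h := realize_trF r q hq ψ (default : Empty → U) (default : Fin 0 → U)
  have e1 : (q ∘ (default : Empty → U)) = (default : Empty → M) := Subsingleton.elim _ _
  have e2 : (q ∘ (default : Fin 0 → U)) = (default : Fin 0 → M) := Subsingleton.elim _ _
  rw [e1, e2] at h
  exact h

end Pool.Agent.Helper87.AU
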