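import Pool.Agent.Helper87.AS.Count
import Pool.Agent.Helper87.AU.Tr
import Pool.Agent.Helper87.AU.EncSent
import Pool.Agent.Helper87.AU.EncCount
import Pool.Agent.Helper87.AU.EncAsym

/-!
# AU-6: encoding spectra by sentences with few labelled models

Proof of `encode`. `FinVoc L` gives `r` with no symbols of arity `> r`. `c` from `enc_count hL r`, `D`, `n₀` from
`enc_asym r c C`. `L' = LE L (r + 1)` (finite), `φ = θ ⊓ ψ'` with `θ` from `enc_sentence`, `ψ'` from `exists_tr`.
* `Spec L' φ`: if `U` is a model of size `n > 0` (finite) then `Enc.quot` gives `M`, `q`, `n = D * |M| ^ (r + 1)`,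
  `M` is a model of `ψ` (`exists_tr`), `|M| > 0`. Conversely `exists_enc`.
* Count for `n ≥ n₀`: if there is a model on `Fin n`, then `n = D * m ^ (r + 1)`; all models satisfy `Enc`, so
  their number is at most the number in `enc_count` (`finite_str` from `AS/Count.lean` for the finiteness), and
  `enc_asym`. If there is no model the number is `0`.
-/

set_option autoImplicit false

namespace Pool.Agent.Helper87.AU

open FirstOrder FirstOrder.Language Pool.Agent.Helper31.Spectra

private lemma arity_bound {L : FirstOrder.Language.{0, 0}} (hL : FinVoc L) :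
    ∃ r : ℕ, ∀ n, r < n → IsEmpty (L.Functions n) ∧ IsEmpty (L.Relations n) := by
  obtain ⟨h1, h2⟩ := hL
  obtain ⟨a, ha⟩ := (Set.finite_range (fun x : Σ n, L.Functions n => x.1)).bddAbove
  obtain ⟨b, hb⟩ := (Set.finite_range (fun x : Σ n, L.Relations n => x.1)).bddAbove
  refine ⟨max a b, fun n hn => ⟨⟨fun f => ?_⟩, ⟨fun R => ?_⟩⟩⟩
  · have : n ≤ a := ha ⟨⟨n, f⟩, rfl⟩
    have := le_max_left a b
    omega
  · have : n ≤ b := hb ⟨⟨n, R⟩, rfl⟩
    have := le_max_right a b
    omega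

private lemma finVoc_LPi (r : ℕ) : FinVoc (LPi r) := by
  constructor
  · refine Finite.of_surjective (fun i : Fin r => (⟨1, PiFun.pi i⟩ : Σ n, (LPi r).Functions n)) ?_
    rintro ⟨n, f⟩
    cases f with
    | pi i => exact ⟨i, rfl⟩
  · have : IsEmpty (Σ n, (LPi r).Relations n) := ⟨fun z => Empty.elim z.2⟩
    infer_instance

theorem encode {L : FirstOrder.Language.{0, 0}} (hL : FinVoc L) (ψ : L.Sentence) (C : ℕ) :
    ∃ (r D : ℕ) (L' : FirstOrder.Language.{0, 0}) (φ : L'.Sentence), 1 ≤ D ∧ FinVoc L' ∧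
      Spec L' φ = {n | ∃ m ∈ Spec L ψ, n = D * m ^ (r + 1)} ∧
      ∃ n₀ : ℕ, ∀ n, n₀ ≤ n →
        Nat.card {S : L'.Structure (Fin n) // @Sentence.Realize L' (Fin n) S φ} * C ^ n ≤
          n.factorial := by
  obtain ⟨r, har⟩ := arity_bound hL
  obtain ⟨c, hc⟩ := enc_count hL r har
  obtain ⟨D, n₀, hD, hasym⟩ := enc_asym r c C
  obtain ⟨θ, hθ⟩ := enc_sentence hL r D hD
  obtain ⟨ψ', hψ'⟩ := exists_tr r ψ
  have hLE : FinVoc (LE L (r + 1)) := finVoc_sum hL (finVoc_LPi (r + 1))
  refine ⟨r, D, LE L (r + 1), θ ⊓ ψ', hD, hLE, ?_, n₀, ?_⟩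
  · ext n
    constructor
    · rintro ⟨hn, U, sU, hU, hr⟩
      obtain ⟨hr1, hr2⟩ := Formula.realize_inf.1 hr
      have hE : Enc L r D U := (hθ U).1 hr1
      have hfin : Finite U := Nat.finite_of_card_ne_zero (by omega)
      obtain ⟨M, sM, q, hq, hcard⟩ := hE.quot
      have hM : M ⊨ ψ := (hψ' U M q hq).1 hr2
      refine ⟨Nat.card M, ⟨?_, M, sM, rfl, hM⟩, by rw [← hU, hcard]⟩
      rcases Nat.eq_zero_or_pos (Nat.card M) with h0 | h0
      · rw [h0, zero_pow (Nat.succ_ne_zero r), mul_zero] at hcard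
        omega
      · exact h0
    · rintro ⟨m, ⟨hm, M, sM, hM, hr⟩, rfl⟩
      have hfin : Finite M := Nat.finite_of_card_ne_zero (by omega)
      obtain ⟨U, sU, q, hE, hq, hcard⟩ := exists_enc (L := L) r hD M
      refine ⟨Nat.mul_pos hD (Nat.pow_pos hm), U, sU, by rw [hcard, hM], ?_⟩
      exact Formula.realize_inf.2 ⟨(hθ U).2 hE, (hψ' U M q hq).2 hr⟩
  · intro n hn
    by_cases hne : Nonempty {S : (LE L (r + 1)).Structure (Fin n) //
        @Sentence.Realize (LE L (r + 1)) (Fin n) S (θ ⊓ ψ')}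
    · have hsub : ∀ S : (LE L (r + 1)).Structure (Fin n),
          @Sentence.Realize (LE L (r + 1)) (Fin n) S (θ ⊓ ψ') → @Enc L r D (Fin n) S := by
        intro S hS
        exact (hθ (Fin n)).1 (Formula.realize_inf.1 hS).1
      obtain ⟨S, hS⟩ := hne
      obtain ⟨M, sM, q, hq, hcard⟩ := (hsub S hS).quot
      rw [Nat.card_fin] at hcard
      have hfin : Finite ((LE L (r + 1)).Structure (Fin n)) :=
        Pool.Agent.Helper87.AS.finite_str hLE (Fin n)
      have h1 : Nat.card {S : (LE L (r + 1)).Structure (Fin n) //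
          @Sentence.Realize (LE L (r + 1)) (Fin n) S (θ ⊓ ψ')} ≤
          Nat.card {S : (LE L (r + 1)).Structure (Fin n) // @Enc L r D (Fin n) S} :=
        Nat.card_le_card_of_injective (fun S => ⟨S.1, hsub S.1 S.2⟩)
          (fun S S' h => Subtype.ext (Subtype.mk.inj h))
      exact (Nat.mul_le_mul_right _ (h1.trans (hc D (Nat.card M) n hD hcard))).trans
        (hasym (Nat.card M) n hn hcard)
    · rw [not_nonempty_iff] at hne
      rw [Nat.card_of_isEmpty, zero_mul]
      exact Nat.zero_le _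

end Pool.Agent.Helper87.AU
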